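import Mathlib

set_option autoImplicit false
open Topology

namespace Pool.Agent.LibZpIndex

/-- The `(n+1)`-fold join of the discrete group `ZMod p`, as the set of formal convex combinations:
functions `x` with nonnegative values and total sum one, such that for every index `i` at most one
`x i g` is nonzero (the underlying space of a simplicial complex with vertices `(i, g)`). -/
abbrev EZ (n p : ℕ) [NeZero p] : Type :=
  {x : Fin (n + 1) → ZMod p → ℝ // (∀ i g, 0 ≤ x i g) ∧ (∑ i, ∑ g, x i g = 1) ∧
    ∀ i g h, x i g ≠ 0 → x i h ≠ 0 → g = h}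

variable {n p : ℕ} [NeZero p]

/-- translation of all group coordinates by `a` -/
def trans (a : ZMod p) (x : EZ n p) : EZ n p :=
  ⟨fun i g => x.1 i (g - a), fun i g => x.2.1 i _, by
    refine Eq.trans ?_ x.2.2.1
    refine Finset.sum_congr rfl fun i _ => ?_
    exact Equiv.sum_comp (Equiv.subRight a) (x.1 i), fun i g h hg hh => by
    have := x.2.2.2 i _ _ hg hh
    exact sub_left_injective this⟩

/-- the generator of the action of `ZMod p` on the join -/
def act (x : EZ n p) : EZ n p := trans 1 x

lemma trans_trans (a b : ZMod p) (x : EZ n p) : trans a (trans b x) = trans (b + a) x := by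
  apply Subtype.ext
  funext i g
  show x.1 i (g - a - b) = x.1 i (g - (b + a))
  rw [show g - a - b = g - (b + a) by ring]

lemma trans_zero (x : EZ n p) : trans 0 x = x := by
  apply Subtype.ext
  funext i g
  simp [trans]

lemma continuous_trans (a : ZMod p) : Continuous (trans a : EZ n p → EZ n p) := by
  refine Continuous.subtype_mk ?_ _
  refine continuous_pi fun i => continuous_pi fun g => ?_
  exact (continuous_apply_apply i (g - a)).comp continuous_subtype_val

/-! ### the phase -/

lemma one_le_dist_exp {a b : ℝ} (h : Real.cos (a - b) ≤ 0) :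
    1 ≤ dist (Circle.exp a) (Circle.exp b) := by
  have h1 : dist (Circle.exp a) (Circle.exp b) = ‖(Complex.exp (a * Complex.I) - Complex.exp (b * Complex.I))‖ := by
    have h0 : dist (Circle.exp a) (Circle.exp b) = dist ((Circle.exp a : Circle) : ℂ) ((Circle.exp b : Circle) : ℂ) := rfl
    rw [h0, dist_eq_norm, Circle.coe_exp, Circle.coe_exp]
  have h2 : ‖(Complex.exp (a * Complex.I) - Complex.exp (b * Complex.I))‖ ^ 2 = 2 - 2 * Real.cos (a - b) := by
    rw [← Complex.normSq_eq_norm_sq, Complex.normSq_apply]
    simp only [Complex.sub_re, Complex.sub_im, Complex.exp_ofReal_mul_I_re, Complex.exp_ofReal_mul_I_im]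
    rw [Real.cos_sub]
    have := Real.sin_sq_add_cos_sq a
    have := Real.sin_sq_add_cos_sq b
    nlinarith
  rw [h1]
  have h3 : 1 ≤ ‖(Complex.exp (a * Complex.I) - Complex.exp (b * Complex.I))‖ ^ 2 := by
    rw [h2]; linarith
  nlinarith [norm_nonneg (Complex.exp (a * Complex.I) - Complex.exp (b * Complex.I))]

/-- the largest jump -/
noncomputable def jump (u : ZMod p → ℝ) : ℝ := ‖fun k : ZMod p => u (k + 1) - u k‖

/-- cut-off of the jump at `k` -/
noncomputable def chi (u : ZMod p → ℝ) (k : ZMod p) : ℝ := min 1 (2 * (1 - |u (k + 1) - u k| / jump u))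

/-- the phase increments -/
noncomputable def inc (u : ZMod p → ℝ) (k : ZMod p) : ℝ :=
  -Real.pi * chi u k + Real.pi * ((∑ j, chi u j) / ∑ j, (1 - chi u j)) * (1 - chi u k)

/-- the phase -/
noncomputable def phase (u : ZMod p → ℝ) : ℝ :=
  (p : ℝ)⁻¹ * ∑ k ∈ Finset.range p, (k : ℝ) * inc u (k : ZMod p)

/-- the map to the torus -/
noncomputable def tor (u : ZMod p → ℝ) : Circle × Circle :=
  (Circle.exp (phase u), Circle.exp (Real.pi * u 0 / jump u))

lemma sum_shift (f : ZMod p → ℝ) : ∑ k, f (k + 1) = ∑ k, f k :=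
  Equiv.sum_comp (Equiv.addRight (1 : ZMod p)) f

lemma jump_shift (u : ZMod p → ℝ) : jump (fun k => u (k + 1)) = jump u := by
  unfold jump
  apply le_antisymm
  · refine (pi_norm_le_iff_of_nonneg (norm_nonneg _)).2 fun k => ?_
    exact norm_le_pi_norm (fun k : ZMod p => u (k + 1) - u k) (k + 1)
  · refine (pi_norm_le_iff_of_nonneg (norm_nonneg _)).2 fun k => ?_
    have := norm_le_pi_norm (fun k : ZMod p => u (k + 1 + 1) - u (k + 1)) (k - 1)
    simpa using this

lemma chi_shift (u : ZMod p → ℝ) (k : ZMod p) : chi (fun k => u (k + 1)) k = chi u (k + 1) := by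
  unfold chi
  rw [jump_shift]

lemma inc_shift (u : ZMod p → ℝ) (k : ZMod p) : inc (fun k => u (k + 1)) k = inc u (k + 1) := by
  unfold inc
  simp_rw [chi_shift]
  rw [sum_shift (chi u), sum_shift (fun j => 1 - chi u j)]

lemma sum_range_zmod (f : ZMod p → ℝ) : ∑ k ∈ Finset.range p, f (k : ZMod p) = ∑ k, f k := by
  refine Finset.sum_nbij' (fun k => (k : ZMod p)) (fun z => z.val) ?_ ?_ ?_ ?_ ?_
  · intro k _; exact Finset.mem_univ _
  · intro z _; exact Finset.mem_range.2 (ZMod.val_lt z)
  · intro k hk; exact ZMod.val_natCast_of_lt (Finset.mem_range.1 hk)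
  · intro z _; exact ZMod.natCast_zmod_val z
  · intro k _; rfl

lemma chi_le_one (u : ZMod p → ℝ) (k : ZMod p) : chi u k ≤ 1 := min_le_left _ _

lemma den_pos {u : ZMod p → ℝ} (hu : 0 < jump u) : 0 < ∑ j, (1 - chi u j) := by
  have h1 : ∃ k, ‖u (k + 1) - u k‖ = jump u := by
    by_contra hcon
    push Not at hcon
    have h2 : ∀ k, ‖(fun k : ZMod p => u (k + 1) - u k) k‖ < jump u := fun k =>
      lt_of_le_of_ne (norm_le_pi_norm (fun k : ZMod p => u (k + 1) - u k) k) (hcon k)
    have := (pi_norm_lt_iff hu).2 h2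
    exact lt_irrefl _ this
  obtain ⟨k, hk⟩ := h1
  refine Finset.sum_pos' (fun j _ => by linarith [chi_le_one u j]) ⟨k, Finset.mem_univ _, ?_⟩
  have : chi u k ≤ 0 := by
    unfold chi
    rw [Real.norm_eq_abs] at hk
    rw [hk, div_self hu.ne']
    norm_num
  linarith

lemma sum_inc {u : ZMod p → ℝ} (hu : 0 < jump u) : ∑ k, inc u k = 0 := by
  unfold inc
  rw [Finset.sum_add_distrib, ← Finset.mul_sum, ← Finset.mul_sum]
  have := (den_pos hu).ne'
  field_simp
  ring

lemma phase_shift {u : ZMod p → ℝ} (hu : 0 < jump u) :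
    phase (fun k => u (k + 1)) = phase u + inc u 0 := by
  unfold phase
  simp_rw [inc_shift]
  have hp : (p : ℝ) ≠ 0 := Nat.cast_ne_zero.2 (NeZero.ne p)
  set f : ℕ → ℝ := fun k => (k : ℝ) * inc u (k : ZMod p) with hf
  have h1 : ∑ k ∈ Finset.range p, f (k + 1) = ∑ k ∈ Finset.range p, f k + f p := by
    have e1 := Finset.sum_range_succ' f p
    have e2 := Finset.sum_range_succ f p
    have e3 : f 0 = 0 := by simp [hf]
    linarith
  have h2 : ∑ k ∈ Finset.range p, inc u ((k : ZMod p) + 1) = 0 := by
    rw [sum_range_zmod (fun k => inc u (k + 1)), sum_shift (inc u)]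
    exact sum_inc hu
  have h3 : ∑ k ∈ Finset.range p, (k : ℝ) * inc u ((k : ZMod p) + 1) =
      ∑ k ∈ Finset.range p, f (k + 1) - ∑ k ∈ Finset.range p, inc u ((k : ZMod p) + 1) := by
    rw [← Finset.sum_sub_distrib]
    refine Finset.sum_congr rfl fun k _ => ?_
    rw [hf]
    push_cast
    ring
  have h4 : f p = p * inc u 0 := by
    rw [hf]
    simp
  rw [h3, h2, h1, h4]
  field_simp
  ring

lemma tor_sep {u : ZMod p → ℝ} (hu : 0 < jump u) :
    1 ≤ dist (tor (fun k => u (k + 1))) (tor u) := by
  rw [Prod.dist_eq]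
  by_cases h : 1 / 2 ≤ |u (0 + 1) - u 0| / jump u
  · refine le_max_of_le_right ?_
    unfold tor
    apply one_le_dist_exp
    rw [jump_shift]
    have h1 : |u (0 + 1) - u 0| / jump u ≤ 1 := by
      rw [div_le_one hu]
      exact norm_le_pi_norm (fun k : ZMod p => u (k + 1) - u k) 0
    have h2 : Real.pi * u (0 + 1) / jump u - Real.pi * u 0 / jump u = Real.pi * ((u (0 + 1) - u 0) / jump u) := by
      ring
    rw [h2, ← Real.cos_abs, abs_mul, abs_of_pos Real.pi_pos, abs_div, abs_of_pos hu]
    apply Real.cos_nonpos_of_pi_div_two_le_of_le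
    · nlinarith [Real.pi_pos]
    · nlinarith [Real.pi_pos]
  · refine le_max_of_le_left ?_
    unfold tor
    apply one_le_dist_exp
    rw [phase_shift hu]
    push Not at h
    have h1 : chi u 0 = 1 := by
      unfold chi
      apply min_eq_left
      linarith
    have h2 : inc u 0 = -Real.pi := by
      unfold inc
      rw [h1]
      ring
    rw [h2]
    have : phase u + -Real.pi - phase u = -Real.pi := by ring
    rw [this, Real.cos_neg, Real.cos_pi]
    norm_num

lemma continuous_tor {Y : Type*} [TopologicalSpace Y] {u : Y → ZMod p → ℝ} (hu : Continuous u)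
    (h : ∀ y, 0 < jump (u y)) : Continuous (fun y => tor (u y)) := by
  have hk : ∀ k : ZMod p, Continuous (fun y => u y k) := fun k => (continuous_apply k).comp hu
  have hj : Continuous (fun y => jump (u y)) := by
    unfold jump
    exact continuous_norm.comp (continuous_pi fun k => (hk (k + 1)).sub (hk k))
  have hc : ∀ k : ZMod p, Continuous (fun y => chi (u y) k) := by
    intro k
    unfold chi
    refine continuous_const.min (continuous_const.mul (continuous_const.sub ?_))
    exact (((hk (k + 1)).sub (hk k)).abs).div hj (fun y => (h y).ne')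
  have hi : ∀ k : ZMod p, Continuous (fun y => inc (u y) k) := by
    intro k
    unfold inc
    refine (continuous_const.mul (hc k)).add ((continuous_const.mul ?_).mul (continuous_const.sub (hc k)))
    refine (continuous_finsetSum _ fun j _ => hc j).div (continuous_finsetSum _ fun j _ => continuous_const.sub (hc j)) ?_
    intro y
    exact (den_pos (h y)).ne'
  have hp : Continuous (fun y => phase (u y)) := by
    unfold phase
    exact continuous_const.mul (continuous_finsetSum _ fun k _ => continuous_const.mul (hi _))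
  unfold tor
  refine Continuous.prodMk (Circle.exp.continuous.comp hp) (Circle.exp.continuous.comp ?_)
  exact (continuous_const.mul (hk 0)).div hj (fun y => (h y).ne')

end Pool.Agent.LibZpIndex
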