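import Pool.Agent.LibZpIndex.System

/-!
Chains of finite lists with coefficients in a commutative ring (augmented ordered chain complex,
with signs). A list of length n+1 is an n-simplex; the empty list is the simplex of degree -1.
-/

set_option autoImplicit false

namespace Pool.Agent.LibZpIndex

open Finsupp

variable {F : Type*} [CommRing F] {V W X : Type*}

/-- Chains on finite lists. -/
abbrev Ch (F : Type*) [CommRing F] (V : Type*) := List V →₀ F

variable (F) in
/-- put `x` in front of every list -/
noncomputable def consL (x : V) : Ch F V →ₗ[F] Ch F V := Finsupp.lmapDomain F F (List.cons x)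

@[simp] lemma consL_single (x : V) (l : List V) (c : F) :
    consL F x (single l c) = single (x :: l) c := by
  simp [consL, Finsupp.lmapDomain_apply, Finsupp.mapDomain_single]

variable (F) in
/-- boundary of a list -/
noncomputable def bdL : List V → Ch F V
  | [] => 0
  | (x :: l) => single l 1 - consL F x (bdL l)

/-- boundary of a chain -/
noncomputable def bd : Ch F V →ₗ[F] Ch F V := Finsupp.linearCombination F (bdL F)

variable (F) in
/-- push forward -/
noncomputable def mapL (g : V → W) : Ch F V →ₗ[F] Ch F W := Finsupp.lmapDomain F F (List.map g)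

@[simp] lemma mapL_single (g : V → W) (l : List V) (c : F) :
    mapL F g (single l c) = single (l.map g) c := by
  simp [mapL, Finsupp.lmapDomain_apply, Finsupp.mapDomain_single]

@[simp] lemma bd_single_nil (c : F) : bd (single ([] : List V) c) = 0 := by simp [bd, bdL]

lemma bd_single_cons (x : V) (l : List V) (c : F) :
    bd (single (x :: l) c) = single l c - consL F x (bd (single l c)) := by
  simp only [bd, Finsupp.linearCombination_single, bdL, smul_sub, Finsupp.smul_single,
    smul_eq_mul, mul_one, map_smul]

/-- two linear maps out of chains agree if they agree on lists -/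
lemma lin_ext {M : Type*} [AddCommMonoid M] [Module F M] {f g : Ch F V →ₗ[F] M}
    (h : ∀ l, f (single l 1) = g (single l 1)) : f = g := by
  apply Finsupp.lhom_ext
  intro a b
  have : single a b = b • single a (1 : F) := by simp
  rw [this, map_smul, map_smul, h]

lemma bd_consL (x : V) (z : Ch F V) : bd (consL F x z) = z - consL F x (bd z) := by
  have : bd ∘ₗ consL F x = LinearMap.id - consL F x ∘ₗ bd := by
    apply lin_ext
    intro l
    simp [bd_single_cons]
  simpa using LinearMap.congr_fun this z

lemma bd_bd (z : Ch F V) : bd (bd z) = 0 := by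
  have : bd ∘ₗ (bd : Ch F V →ₗ[F] Ch F V) = 0 := by
    apply lin_ext
    intro l
    induction l with
    | nil => simp
    | cons x l ih =>
      simp only [LinearMap.comp_apply, LinearMap.zero_apply] at ih ⊢
      rw [bd_single_cons, map_sub, bd_consL, ih, map_zero, sub_zero, sub_self]
  simpa using LinearMap.congr_fun this z

lemma mapL_consL (g : V → W) (x : V) (z : Ch F V) :
    mapL F g (consL F x z) = consL F (g x) (mapL F g z) := by
  have : mapL F g ∘ₗ consL F x = consL F (g x) ∘ₗ mapL F g := by
    apply lin_ext; intro l; simp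
  simpa using LinearMap.congr_fun this z

lemma bd_mapL (g : V → W) (z : Ch F V) : bd (mapL F g z) = mapL F g (bd z) := by
  have : bd ∘ₗ mapL F g = mapL F g ∘ₗ bd := by
    apply lin_ext
    intro l
    induction l with
    | nil => simp
    | cons x l ih =>
      simp only [LinearMap.comp_apply] at ih ⊢
      rw [mapL_single, List.map_cons, bd_single_cons, bd_single_cons, map_sub, mapL_consL,
        ← ih, mapL_single]
  simpa using LinearMap.congr_fun this z

lemma mapL_mapL (g : V → W) (f : W → X) (z : Ch F V) :
    mapL F f (mapL F g z) = mapL F (f ∘ g) z := by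
  have : mapL F f ∘ₗ mapL F g = mapL F (f ∘ g) := by
    apply lin_ext; intro l; simp
  simpa using LinearMap.congr_fun this z

lemma mapL_id (z : Ch F V) : mapL F (id : V → V) z = z := by
  have : mapL F (id : V → V) = LinearMap.id := by
    apply lin_ext; intro l; simp
  simpa using LinearMap.congr_fun this z

/-! ### prism operator -/

variable (F) in
/-- prism operator on lists -/
noncomputable def prismL (g g' : V → W) : List V → Ch F W
  | [] => 0
  | (x :: l) => single (g x :: g' x :: l.map g') 1 - consL F (g x) (prismL g g' l)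

variable (F) in
/-- prism operator -/
noncomputable def prism (g g' : V → W) : Ch F V →ₗ[F] Ch F W :=
  Finsupp.linearCombination F (prismL F g g')

@[simp] lemma prism_single_nil (g g' : V → W) (c : F) :
    prism F g g' (single [] c) = 0 := by simp [prism, prismL]

lemma prism_single_cons (g g' : V → W) (x : V) (l : List V) (c : F) :
    prism F g g' (single (x :: l) c) =
      single (g x :: g' x :: l.map g') c - consL F (g x) (prism F g g' (single l c)) := by
  simp only [prism, Finsupp.linearCombination_single, prismL, smul_sub, Finsupp.smul_single,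
    smul_eq_mul, mul_one, map_smul]

lemma prism_consL (g g' : V → W) (x : V) (z : Ch F V) :
    prism F g g' (consL F x z) =
      consL F (g x) (consL F (g' x) (mapL F g' z)) - consL F (g x) (prism F g g' z) := by
  have : prism F g g' ∘ₗ consL F x =
      consL F (g x) ∘ₗ consL F (g' x) ∘ₗ mapL F g' - consL F (g x) ∘ₗ prism F g g' := by
    apply lin_ext; intro l; simp [prism_single_cons]
  simpa using LinearMap.congr_fun this z

lemma prism_formula (g g' : V → W) (z : Ch F V) :
    bd (prism F g g' z) + prism F g g' (bd z) = mapL F g' z - mapL F g z := by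
  have : bd ∘ₗ prism F g g' + prism F g g' ∘ₗ bd = mapL F g' - mapL F g := by
    apply lin_ext
    intro l
    induction l with
    | nil => simp
    | cons x l ih =>
      simp only [LinearMap.comp_apply, LinearMap.add_apply, LinearMap.sub_apply, mapL_single,
        List.map_cons] at ih ⊢
      have ih' : bd (prism F g g' (single l 1)) =
          single (l.map g') 1 - single (l.map g) 1 - prism F g g' (bd (single l 1)) := by
        rw [← ih]; abel
      rw [prism_single_cons, bd_single_cons x l, map_sub, map_sub, bd_consL, prism_consL,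
        bd_single_cons, bd_single_cons, ih']
      simp only [map_sub, consL_single, ← bd_mapL, mapL_single]
      abel
  simpa using LinearMap.congr_fun this z

/-! ### supports -/

/-- `P` is inherited by sublists -/
def SubClosed (P : List V → Prop) : Prop := ∀ l l' : List V, l'.Sublist l → P l → P l'

variable (F) in
/-- chains supported on lists of length `n` satisfying `P` -/
noncomputable def CK (P : List V → Prop) (n : ℕ) : Submodule F (Ch F V) :=
  Finsupp.supported F F {l | l.length = n ∧ P l}

lemma mem_CK {P : List V → Prop} {n : ℕ} {z : Ch F V} :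
    z ∈ CK F P n ↔ ∀ l ∈ z.support, l.length = n ∧ P l := by
  rw [CK, Finsupp.mem_supported]
  rfl

lemma single_mem_CK {P : List V → Prop} {n : ℕ} {l : List V} (h1 : l.length = n) (h2 : P l)
    (c : F) : single l c ∈ CK F P n :=
  Finsupp.single_mem_supported _ _ ⟨h1, h2⟩

lemma CK_induction {P : List V → Prop} {n : ℕ} {M : Type*} [AddCommGroup M] [Module F M]
    (f : Ch F V →ₗ[F] M) (N : Submodule F M)
    (h : ∀ l : List V, l.length = n → P l → f (single l 1) ∈ N) {z : Ch F V} (hz : z ∈ CK F P n) :
    f z ∈ N := by
  rw [CK, Finsupp.supported_eq_span_single] at hz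
  have : Submodule.span F ((fun i => single i (1 : F)) '' {l | l.length = n ∧ P l}) ≤
      N.comap f := by
    rw [Submodule.span_le]
    rintro _ ⟨l, ⟨h1, h2⟩, rfl⟩
    exact h l h1 h2
  exact this hz

lemma CK_eq {P : List V → Prop} {n : ℕ} {M : Type*} [AddCommGroup M] [Module F M]
    (f g : Ch F V →ₗ[F] M)
    (h : ∀ l : List V, l.length = n → P l → f (single l 1) = g (single l 1)) {z : Ch F V}
    (hz : z ∈ CK F P n) : f z = g z := by
  have := CK_induction (f - g) ⊥ (fun l h1 h2 => by simp [h l h1 h2]) hz
  simpa [sub_eq_zero] using this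

lemma CK_mono {P P' : List V → Prop} (h : ∀ l, P l → P' l) (n : ℕ) : CK F P n ≤ CK F P' n := by
  intro z hz
  rw [mem_CK] at hz ⊢
  exact fun l hl => ⟨(hz l hl).1, h l (hz l hl).2⟩

lemma consL_mem_CK {P P' : List V → Prop} {n : ℕ} {x : V} (h : ∀ l, l.length = n → P l → P' (x :: l))
    {z : Ch F V} (hz : z ∈ CK F P n) : consL F x z ∈ CK F P' (n + 1) := by
  refine CK_induction (consL F x) (CK F P' (n + 1)) (fun l h1 h2 => ?_) hz
  rw [consL_single]
  exact single_mem_CK (by simp [h1]) (h l h1 h2) 1

lemma bd_single_mem (l : List V) (c : F) :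
    ∀ l' ∈ (bd (single l c)).support, l'.length + 1 = l.length ∧ l'.Sublist l := by
  classical
  induction l with
  | nil => simp
  | cons x l ih =>
    intro l' hl'
    rw [bd_single_cons] at hl'
    have h1 := Finsupp.support_sub hl'
    rw [Finset.mem_union] at h1
    rcases h1 with h1 | h1
    · have h2 := Finsupp.support_single_subset h1
      rw [Finset.mem_singleton] at h2
      subst h2
      exact ⟨by simp, List.sublist_cons_self _ _⟩
    · have h2 : l' ∈ Finset.image (List.cons x) (bd (single l c)).support :=
        Finsupp.mapDomain_support h1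
      rw [Finset.mem_image] at h2
      obtain ⟨l'', h3, rfl⟩ := h2
      obtain ⟨h4, h5⟩ := ih l'' h3
      exact ⟨by simp [h4], h5.cons_cons x⟩

lemma bd_mem_CK {P : List V → Prop} (hP : SubClosed P) {n : ℕ} {z : Ch F V}
    (hz : z ∈ CK F P (n + 1)) : bd z ∈ CK F P n := by
  refine CK_induction bd (CK F P n) (fun l h1 h2 => ?_) hz
  rw [mem_CK]
  intro l' hl'
  obtain ⟨h3, h4⟩ := bd_single_mem l 1 l' hl'
  exact ⟨by omega, hP l l' h4 h2⟩

lemma mapL_mem_CK {P : List V → Prop} {P' : List W → Prop} {n : ℕ} {g : V → W}
    (h : ∀ l, l.length = n → P l → P' (l.map g)) {z : Ch F V} (hz : z ∈ CK F P n) :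
    mapL F g z ∈ CK F P' n := by
  refine CK_induction (mapL F g) (CK F P' n) (fun l h1 h2 => ?_) hz
  rw [mapL_single]
  exact single_mem_CK (by simp [h1]) (h l h1 h2) 1

lemma prism_single_mem (g g' : V → W) (l : List V) (c : F) :
    ∀ l' ∈ (prism F g g' (single l c)).support, l'.length = l.length + 1 ∧
      ∀ y ∈ l', ∃ x ∈ l, y = g x ∨ y = g' x := by
  classical
  induction l with
  | nil => simp
  | cons x l ih =>
    intro l' hl'
    rw [prism_single_cons] at hl'
    have h1 := Finsupp.support_sub hl'
    rw [Finset.mem_union] at h1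
    rcases h1 with h1 | h1
    · have h2 := Finsupp.support_single_subset h1
      rw [Finset.mem_singleton] at h2
      subst h2
      refine ⟨by simp, ?_⟩
      intro y hy
      simp only [List.mem_cons, List.mem_map] at hy
      rcases hy with rfl | rfl | ⟨a, ha, rfl⟩
      · exact ⟨x, by simp, Or.inl rfl⟩
      · exact ⟨x, by simp, Or.inr rfl⟩
      · exact ⟨a, by simp [ha], Or.inr rfl⟩
    · have h2 : l' ∈ Finset.image (List.cons (g x)) (prism F g g' (single l c)).support :=
        Finsupp.mapDomain_support h1
      rw [Finset.mem_image] at h2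
      obtain ⟨l'', h3, rfl⟩ := h2
      obtain ⟨h4, h5⟩ := ih l'' h3
      refine ⟨by simp [h4], ?_⟩
      intro y hy
      rw [List.mem_cons] at hy
      rcases hy with rfl | hy
      · exact ⟨x, by simp, Or.inl rfl⟩
      · obtain ⟨a, ha, hb⟩ := h5 y hy
        exact ⟨a, by simp [ha], hb⟩

lemma prism_mem_CK {P : List V → Prop} {P' : List W → Prop} {n : ℕ} {g g' : V → W}
    (h : ∀ l, l.length = n → P l → ∀ l' : List W, (∀ y ∈ l', ∃ x ∈ l, y = g x ∨ y = g' x) → P' l')
    {z : Ch F V} (hz : z ∈ CK F P n) : prism F g g' z ∈ CK F P' (n + 1) := by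
  refine CK_induction (prism F g g') (CK F P' (n + 1)) (fun l h1 h2 => ?_) hz
  rw [mem_CK]
  intro l' hl'
  obtain ⟨h3, h4⟩ := prism_single_mem g g' l 1 l' hl'
  exact ⟨by omega, h l h1 h2 l' h4⟩

/-- lists with all entries in `A` and pairwise related by `D` -/
def Sm (A : Set V) (D : V → V → Prop) : List V → Prop :=
  fun l => (∀ x ∈ l, x ∈ A) ∧ ∀ x ∈ l, ∀ y ∈ l, D x y

lemma Sm_mono {A A' : Set V} {D D' : V → V → Prop} (hA : A ⊆ A') (hD : ∀ x y, D x y → D' x y)
    {l : List V} (h : Sm A D l) : Sm A' D' l :=
  ⟨fun x hx => hA (h.1 x hx), fun x hx y hy => hD _ _ (h.2 x hx y hy)⟩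

/-! ### homotopies by finitely many small steps -/

lemma homotopy_steps {P : List V → Prop} {A : Set W} {D : W → W → Prop} (g : ℕ → V → W) (L : ℕ)
    (hA : ∀ i, i ≤ L → ∀ l, P l → ∀ x ∈ l, g i x ∈ A)
    (hD : ∀ i, i < L → ∀ l, P l → ∀ x ∈ l, ∀ y ∈ l,
      D (g i x) (g i y) ∧ D (g i x) (g (i+1) y) ∧ D (g (i+1) x) (g i y) ∧
        D (g (i+1) x) (g (i+1) y))
    {N : ℕ} {z : Ch F V} (hz : z ∈ CK F P N) (hc : bd z = 0) :
    ∃ y ∈ CK F (Sm A D) (N + 1), bd y = mapL F (g L) z - mapL F (g 0) z := by
  induction L with
  | zero => exact ⟨0, Submodule.zero_mem _, by rw [map_zero, sub_self]⟩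
  | succ L ih =>
    obtain ⟨y, hy, hyb⟩ := ih (fun i hi => hA i (by omega)) (fun i hi => hD i (by omega))
    refine ⟨y + prism F (g L) (g (L+1)) z, Submodule.add_mem _ hy ?_, ?_⟩
    · refine prism_mem_CK (fun l _ hl l' hl' => ⟨?_, ?_⟩) hz
      · intro y hy
        obtain ⟨x, hx, hxy⟩ := hl' y hy
        rcases hxy with rfl | rfl
        · exact hA L (by omega) l hl x hx
        · exact hA (L+1) le_rfl l hl x hx
      · intro y hy y' hy'
        obtain ⟨x, hx, hxy⟩ := hl' y hy
        obtain ⟨x', hx', hxy'⟩ := hl' y' hy'
        obtain ⟨h1, h2, h3, h4⟩ := hD L (by omega) l hl x hx x' hx'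
        rcases hxy with rfl | rfl <;> rcases hxy' with rfl | rfl <;> assumption
    · have h := prism_formula (F := F) (g L) (g (L+1)) z
      rw [hc, map_zero, add_zero] at h
      rw [map_add, hyb, h]
      abel

end Pool.Agent.LibZpIndex
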