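import Pool.Agent.LibZpIndex.Exact

set_option autoImplicit false
set_option linter.unusedSectionVars false

namespace Pool.Agent.LibZpIndex

open Finsupp

section

variable {F : Type*} [CommRing F]

lemma mapL_nil {V W : Type*} (g : V → W) (z : Ch F V) : (mapL F g z) [] = z [] := by
  have : (Finsupp.lapply ([] : List W)) ∘ₗ mapL F g = Finsupp.lapply ([] : List V) := by
    apply lin_ext
    intro l
    simp only [LinearMap.comp_apply, mapL_single, Finsupp.lapply_apply]
    cases l with
    | nil => simp
    | cons x l => simp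
  exact LinearMap.congr_fun this z

variable {M : Type*} [AddCommGroup M] [Module F M] {p : ℕ} [NeZero p]

lemma nrm_tau (τ : Module.End F M) (z : M) : nrm p τ (τ z) = τ (nrm p τ z) := by
  rw [nrm_apply, nrm_apply, map_sum]
  refine Finset.sum_congr rfl fun j _ => ?_
  rw [← Module.End.mul_apply, ← Module.End.mul_apply, ← pow_succ, ← pow_succ']

lemma tau_nrm (τ : Module.End F M) (h : ∀ z, (τ ^ p) z = z) (z : M) : τ (nrm p τ z) = nrm p τ z := by
  have := geom_end τ p z
  rw [h, sub_self, sub_eq_zero] at this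
  rw [nrm_apply]
  exact this

lemma nrm_sub (τ : Module.End F M) (h : ∀ z, (τ ^ p) z = z) (z : M) : nrm p τ (τ z - z) = 0 := by
  rw [map_sub, nrm_tau, tau_nrm τ h, sub_self]

lemma comm_pow {M' : Type*} [AddCommGroup M'] [Module F M'] (τ : Module.End F M)
    (τ' : Module.End F M') (f : M →ₗ[F] M') (h : ∀ z, f (τ z) = τ' (f z)) (j : ℕ) (z : M) :
    f ((τ ^ j) z) = (τ' ^ j) (f z) := by
  induction j with
  | zero => simp
  | succ j ih => rw [pow_succ', pow_succ', Module.End.mul_apply, Module.End.mul_apply, h, ih]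

lemma comm_nrm {M' : Type*} [AddCommGroup M'] [Module F M'] (τ : Module.End F M)
    (τ' : Module.End F M') (f : M →ₗ[F] M') (h : ∀ z, f (τ z) = τ' (f z)) (z : M) :
    f (nrm p τ z) = nrm p τ' (f z) := by
  rw [nrm_apply, nrm_apply, map_sum]
  exact Finset.sum_congr rfl fun j _ => comm_pow τ τ' f h j z

end

variable {n p : ℕ} [Fact p.Prime]

/-- there is no sequence of chains of labels with the boundaries of the standard resolution -/
theorem no_sequence (w : ℕ → Ch (ZMod p) (Fin (n + 1) × ZMod p))
    (hw : ∀ k ≤ n + 1, w k ∈ CK (ZMod p) Simp (k + 1))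
    (h0 : bd (w 0) = single [] 1)
    (hs : ∀ k ≤ n, bd (w (k + 1)) = if Even k then tau (ZMod p) (n + 1) p (w k) - w k
      else nrm p (tau (ZMod p) (n + 1) p) (w k)) : False := by
  classical
  set τ := tau (ZMod p) (n + 1) p with hτ
  set R := Rg (ZMod p) (n + 1) p with hR
  have hbd : ∀ z, bd (τ z) = τ (bd z) := fun z => by
    rw [hτ, tau, bd_mapL]
  have hbdn : ∀ z, bd (nrm p τ z) = nrm p τ (bd z) := fun z =>
    comm_nrm τ τ bd hbd z
  have claim : ∀ j, j ≤ n + 1 → ∃ y ∈ CK (ZMod p) (Simp : List (Fin (n + 1) × ZMod p) → Prop) (n + 1 - j + 1),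
      ∃ u ∈ CK (ZMod p) (Simp : List (Fin (n + 1) × ZMod p) → Prop) (n + 1 - j + 2),
        w (n + 1 - j) - bd u - (if Even (n + 1 - j) then nrm p τ y else τ y - y) ∈ R := by
    intro j
    induction j with
    | zero =>
      intro _
      refine ⟨0, Submodule.zero_mem _, 0, Submodule.zero_mem _, ?_⟩
      have h1 : w (n + 1) ∈ R := Submodule.mem_sup_left (CK_top (hw (n + 1) le_rfl))
      simpa using h1
    | succ j ih =>
      intro hj
      obtain ⟨y, hy, u, hu, hyu⟩ := ih (by omega)
      set k := n + 1 - (j + 1) with hk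
      have hkj : n + 1 - j = k + 1 := by omega
      rw [hkj] at hy hu hyu
      set z := w k - bd y with hz
      have hzC : z ∈ CK (ZMod p) (Simp : List (Fin (n + 1) × ZMod p) → Prop) (k + 1) :=
        Submodule.sub_mem _ (hw k (by omega)) (bd_mem_CK Simp_sub hy)
      have hb := bd_Rg hyu
      rw [map_sub, map_sub, bd_bd, sub_zero, hs k (by omega)] at hb
      by_cases hkE : Even k
      · have hkO : ¬ Even (k + 1) := by
          rw [Nat.even_add_one]; exact fun h => h hkE
        rw [if_pos hkE, if_neg hkO, map_sub, hbd] at hb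
        have h1 : τ z - z ∈ R := by
          have : τ z - z = τ (w k) - w k - (τ (bd y) - bd y) := by
            rw [hz, map_sub]; abel
          rw [this]; exact hb
        obtain ⟨y', hy', h2⟩ := exact1 τ (Pg (ZMod p) (n + 1)) R _ tau_Rg Pg_Rg (Pg_CK _) Pg_tau
          (Pg_sum k) hzC h1
        refine ⟨y', hy', y, hy, ?_⟩
        rw [if_pos hkE]
        exact h2
      · have hkO : Even (k + 1) := by
          rw [Nat.even_add_one]; exact hkE
        rw [if_neg hkE, if_pos hkO, hbdn] at hb
        have h1 : nrm p τ z ∈ R := by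
          have : nrm p τ z = nrm p τ (w k) - nrm p τ (bd y) := by
            rw [hz, map_sub]
          rw [this]; exact hb
        obtain ⟨y', hy', h2⟩ := exact2 τ (Pg (ZMod p) (n + 1)) R _ Pg_Rg (tau_CK _) (Pg_CK _) Pg_tau
          (Pg_sum k) hzC h1
        refine ⟨y', hy', y, hy, ?_⟩
        rw [if_neg hkE]
        exact h2
  obtain ⟨y, hy, u, hu, hyu⟩ := claim (n + 1) le_rfl
  rw [Nat.sub_self, if_pos (by decide)] at hyu
  have hb := Rg_nil (bd_Rg hyu)
  rw [map_sub, map_sub, bd_bd, sub_zero, h0, hbdn, Finsupp.sub_apply] at hb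
  have h1 : (nrm p τ (bd y)) [] = 0 := by
    rw [nrm_apply, Finsupp.finsetSum_apply]
    have h2 : ∀ j ∈ Finset.range p, ((τ ^ j) (bd y)) [] = (bd y) [] := by
      intro j _
      induction j with
      | zero => simp
      | succ j ih =>
        rw [pow_succ', Module.End.mul_apply, hτ, tau, mapL_nil]
        exact ih (by simp_all; omega)
    rw [Finset.sum_congr rfl h2, Finset.sum_const, Finset.card_range, nsmul_eq_mul]
    simp
  rw [h1, sub_zero] at hb
  simp at hb

end Pool.Agent.LibZpIndex
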