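import Pool.Agent.LibZpIndex.Fill
import Pool.Agent.LibZpIndex.Basic

set_option autoImplicit false
set_option linter.unusedSectionVars false

namespace Pool.Agent.LibZpIndex

open Finsupp

section

variable {n p : ℕ} [NeZero p]

lemma EZ_le_one (x : EZ n p) (i : Fin (n + 1)) (g : ZMod p) : x.1 i g ≤ 1 := by
  calc x.1 i g ≤ ∑ g, x.1 i g := Finset.single_le_sum (fun g _ => x.2.1 i g) (Finset.mem_univ g)
    _ ≤ ∑ i, ∑ g, x.1 i g := Finset.single_le_sum (f := fun i => ∑ g, x.1 i g)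
        (fun i _ => Finset.sum_nonneg fun g _ => x.2.1 i g) (Finset.mem_univ i)
    _ = 1 := x.2.2.1

instance : CompactSpace (EZ n p) := by
  have hco : ∀ (i : Fin (n + 1)) (g : ZMod p), Continuous (fun x : Fin (n + 1) → ZMod p → ℝ => x i g) :=
    fun i g => continuous_apply_apply i g
  have hset : {x : Fin (n + 1) → ZMod p → ℝ | (∀ i g, 0 ≤ x i g) ∧ (∑ i, ∑ g, x i g = 1) ∧
      ∀ i g h, x i g ≠ 0 → x i h ≠ 0 → g = h} =
      (⋂ i, ⋂ g, {x | 0 ≤ x i g}) ∩ ({x | ∑ i, ∑ g, x i g = 1} ∩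
        ⋂ i, ⋂ g, ⋂ h, {x | g ≠ h → x i g * x i h = 0}) := by
    ext x
    simp only [Set.mem_inter_iff, Set.mem_iInter, Set.mem_ofPred_eq]
    refine and_congr Iff.rfl (and_congr Iff.rfl ?_)
    constructor
    · intro h i g g' hne
      by_contra hcon
      exact hne (h i g g' (left_ne_zero_of_mul hcon) (right_ne_zero_of_mul hcon))
    · intro h i g g' h1 h2
      by_contra hcon
      exact mul_ne_zero h1 h2 (h i g g' hcon)
  have hclosed : IsClosed {x : Fin (n + 1) → ZMod p → ℝ | (∀ i g, 0 ≤ x i g) ∧ (∑ i, ∑ g, x i g = 1) ∧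
      ∀ i g h, x i g ≠ 0 → x i h ≠ 0 → g = h} := by
    rw [hset]
    refine IsClosed.inter ?_ (IsClosed.inter ?_ ?_)
    · exact isClosed_iInter fun i => isClosed_iInter fun g => isClosed_le continuous_const (hco i g)
    · exact isClosed_eq (continuous_finsetSum _ fun i _ => continuous_finsetSum _ fun g _ => hco i g)
        continuous_const
    · refine isClosed_iInter fun i => isClosed_iInter fun g => isClosed_iInter fun h => ?_
      by_cases hgh : g = h
      · have : {x : Fin (n + 1) → ZMod p → ℝ | g ≠ h → x i g * x i h = 0} = Set.univ := by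
          ext x; simp [hgh]
        rw [this]; exact isClosed_univ
      · have : {x : Fin (n + 1) → ZMod p → ℝ | g ≠ h → x i g * x i h = 0} = {x | x i g * x i h = 0} := by
          ext x; simp [hgh]
        rw [this]; exact isClosed_eq ((hco i g).mul (hco i h)) continuous_const
  have hsub : {x : Fin (n + 1) → ZMod p → ℝ | (∀ i g, 0 ≤ x i g) ∧ (∑ i, ∑ g, x i g = 1) ∧
      ∀ i g h, x i g ≠ 0 → x i h ≠ 0 → g = h} ⊆ Set.pi Set.univ (fun _ => Set.pi Set.univ (fun _ => Set.Icc (0:ℝ) 1)) := by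
    intro x hx
    rw [Set.mem_univ_pi]
    intro i
    rw [Set.mem_univ_pi]
    intro g
    exact ⟨hx.1 i g, EZ_le_one (⟨x, hx⟩ : EZ n p) i g⟩
  exact isCompact_iff_compactSpace.1
    ((isCompact_univ_pi fun _ => isCompact_univ_pi fun _ => isCompact_Icc).of_isClosed_subset hclosed hsub)

/-- `a` is the first label whose coordinate is large -/
def Lab (y : EZ n p) (a : Fin (n + 1) × ZMod p) : Prop :=
  1 / ((n : ℝ) + 1) ≤ y.1 a.1 a.2 ∧ ∀ i < a.1, ∀ g, y.1 i g < 1 / ((n : ℝ) + 1)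

lemma Lab_exists (y : EZ n p) : ∃ a, Lab y a := by
  classical
  have hn : (0:ℝ) < (n:ℝ) + 1 := by positivity
  have h1 : ∃ i, ∃ g, 1 / ((n : ℝ) + 1) ≤ y.1 i g := by
    by_contra hcon
    push Not at hcon
    have h2 : ∀ i, ∑ g, y.1 i g < 1 / ((n : ℝ) + 1) := by
      intro i
      by_cases h : ∃ g, y.1 i g ≠ 0
      · obtain ⟨g, hg⟩ := h
        rw [Finset.sum_eq_single g]
        · exact hcon i g
        · intro g' _ hg'
          by_contra h3
          exact hg' (y.2.2.2 i _ _ h3 hg)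
        · intro h; exact absurd (Finset.mem_univ _) h
      · push Not at h
        rw [Finset.sum_eq_zero fun g _ => h g]
        positivity
    have h3 : ∑ i, ∑ g, y.1 i g < ∑ _i : Fin (n + 1), 1 / ((n : ℝ) + 1) :=
      Finset.sum_lt_sum_of_nonempty Finset.univ_nonempty fun i _ => h2 i
    rw [y.2.2.1, Finset.sum_const, Finset.card_univ, Fintype.card_fin, nsmul_eq_mul] at h3
    push_cast at h3
    rw [mul_one_div_cancel hn.ne'] at h3
    exact lt_irrefl _ h3
  obtain ⟨i, hi⟩ : ∃ i, (∃ g, 1 / ((n : ℝ) + 1) ≤ y.1 i g) ∧ ∀ j < i, ¬ ∃ g, 1 / ((n : ℝ) + 1) ≤ y.1 j g := by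
    obtain ⟨i, hi⟩ := h1
    have := WellFounded.has_min (wellFounded_lt (α := Fin (n + 1))) {i | ∃ g, 1 / ((n : ℝ) + 1) ≤ y.1 i g} ⟨i, hi⟩
    obtain ⟨m, hm, hm2⟩ := this
    exact ⟨m, hm, fun j hj h => hm2 j h hj⟩
  obtain ⟨⟨g, hg⟩, hmin⟩ := hi
  refine ⟨(i, g), hg, fun j hj g' => ?_⟩
  by_contra hcon
  exact hmin j hj ⟨g', not_lt.1 hcon⟩

lemma Lab_unique {y : EZ n p} {a b : Fin (n + 1) × ZMod p} (ha : Lab y a) (hb : Lab y b) : a = b := by
  have hn : (0:ℝ) < 1 / ((n:ℝ) + 1) := by positivity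
  have h1 : a.1 = b.1 := by
    rcases lt_trichotomy a.1 b.1 with h | h | h
    · exact absurd ha.1 (not_le.2 (hb.2 _ h _))
    · exact h
    · exact absurd hb.1 (not_le.2 (ha.2 _ h _))
  have h2 : a.2 = b.2 := by
    refine y.2.2.2 a.1 _ _ (lt_of_lt_of_le hn ha.1).ne' ?_
    rw [h1]
    exact (lt_of_lt_of_le hn hb.1).ne'
  exact Prod.ext h1 h2

lemma Lab_act {y : EZ n p} {a : Fin (n + 1) × ZMod p} (ha : Lab y a) : Lab (act y) (tl a) := by
  refine ⟨?_, fun i hi g => ha.2 i hi _⟩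
  show 1 / ((n : ℝ) + 1) ≤ y.1 a.1 (a.2 + 1 - 1)
  rw [add_sub_cancel_right]
  exact ha.1

/-- the label -/
noncomputable def lab (y : EZ n p) : Fin (n + 1) × ZMod p := (Lab_exists y).choose

lemma lab_spec (y : EZ n p) : Lab y (lab y) := (Lab_exists y).choose_spec

lemma lab_act (y : EZ n p) : lab (act y) = tl (lab y) := Lab_unique (lab_spec _) (Lab_act (lab_spec y))

lemma lab_close {y z : EZ n p} (h : dist y z < 1 / ((n:ℝ) + 1)) (h1 : (lab y).1 = (lab z).1) :
    lab y = lab z := by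
  have hn : (0:ℝ) < 1 / ((n:ℝ) + 1) := by positivity
  by_contra hcon
  have h2 : (lab y).2 ≠ (lab z).2 := fun h3 => hcon (Prod.ext h1 h3)
  have hy := (lab_spec y).1
  have hz := (lab_spec z).1
  have h4 : z.1 (lab z).1 (lab y).2 = 0 := by
    by_contra h5
    exact h2 (z.2.2.2 _ _ _ h5 (lt_of_lt_of_le hn hz).ne')
  have h6 : dist (y.1 (lab y).1 (lab y).2) (z.1 (lab y).1 (lab y).2) ≤ dist y z :=
    (dist_le_pi_dist (y.1 (lab y).1) (z.1 (lab y).1) (lab y).2).trans (dist_le_pi_dist y.1 z.1 (lab y).1)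
  rw [h1] at h6 hy
  rw [h4, Real.dist_eq, sub_zero] at h6
  have := le_abs_self (y.1 (lab z).1 (lab y).2)
  linarith

end

variable {n p : ℕ} [Fact p.Prime]

/-- Dold's theorem for the cyclic group of prime order, first form -/
theorem no_equivariant_succ (f : EZ (n + 1) p → EZ n p) (hf : Continuous f)
    (hact : ∀ x, f (act x) = act (f x)) : False := by
  classical
  have hn : (0:ℝ) < 1 / ((n:ℝ) + 1) := by positivity
  have huc := CompactSpace.uniformContinuous_of_continuous hf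
  obtain ⟨ε, hε, hεd⟩ := Metric.uniformContinuous_iff.1 huc _ hn
  obtain ⟨d, hd1, hd2, hd3⟩ := exists_seq (N := n + 2) (p := p) (F := ZMod p) (n + 1) (by omega) ε hε
  have hmem : ∀ {k : ℕ}, k ≤ n + 2 → ∀ {x : Amb (n + 2) p}, x ∈ Ks (n + 2) p k →
      ((∀ i g, 0 ≤ x i g) ∧ (∑ i, ∑ g, x i g = 1) ∧ ∀ i g h, x i g ≠ 0 → x i h ≠ 0 → g = h) :=
    fun _ x hx => ⟨hx.1, hx.2.1, hx.2.2.1⟩
  set lam : Amb (n + 2) p → Fin (n + 1) × ZMod p := fun x =>
    if h : ((∀ i g, 0 ≤ x i g) ∧ (∑ i, ∑ g, x i g = 1) ∧ ∀ i g h, x i g ≠ 0 → x i h ≠ 0 → g = h)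
    then lab (f ⟨x, h⟩) else (0, 0) with hlam
  have hlam1 : ∀ {k : ℕ} (hk : k ≤ n + 2) {x : Amb (n + 2) p} (hx : x ∈ Ks (n + 2) p k),
      lam x = lab (f ⟨x, hmem hk hx⟩) := by
    intro k hk x hx
    simp only [hlam]
    rw [dif_pos (hmem hk hx)]
  have hlam2 : ∀ {k : ℕ} (hk : k ≤ n + 2) {x : Amb (n + 2) p} (hx : x ∈ Ks (n + 2) p k),
      lam (tr x) = tl (lam x) := by
    intro k hk x hx
    rw [hlam1 hk hx, hlam1 hk (tr_Ks hx), ← lab_act, ← hact]
    rfl
  have hlam3 : ∀ {k : ℕ} (hk : k ≤ n + 2) {x y : Amb (n + 2) p} (hx : x ∈ Ks (n + 2) p k)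
      (hy : y ∈ Ks (n + 2) p k), dist x y < ε → (lam x).1 = (lam y).1 → lam x = lam y := by
    intro k hk x y hx hy hxy h
    rw [hlam1 hk hx, hlam1 hk hy] at h ⊢
    refine lab_close (hεd ?_) h
    exact hxy
  have htau : ∀ {k m : ℕ}, k ≤ n + 2 → ∀ z ∈ CK (ZMod p) (SmK (n + 2) p k ε) m,
      mapL (ZMod p) lam (tauA (ZMod p) (n + 2) p z) = tau (ZMod p) (n + 1) p (mapL (ZMod p) lam z) := by
    intro k m hk z hz
    have := CK_eq (mapL (ZMod p) lam ∘ₗ tauA (ZMod p) (n + 2) p)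
      (tau (ZMod p) (n + 1) p ∘ₗ mapL (ZMod p) lam) (fun l _ hl => ?_) hz
    · exact this
    · simp only [LinearMap.comp_apply, tauA, tau, mapL_single, List.map_map]
      congr 1
      refine List.map_congr_left fun x hx => ?_
      exact hlam2 hk (hl.1 x hx)
  have htaup : ∀ {k m : ℕ}, k ≤ n + 2 → ∀ z ∈ CK (ZMod p) (SmK (n + 2) p k ε) m, ∀ j : ℕ,
      mapL (ZMod p) lam ((tauA (ZMod p) (n + 2) p ^ j) z) =
        (tau (ZMod p) (n + 1) p ^ j) (mapL (ZMod p) lam z) := by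
    intro k m hk z hz j
    induction j with
    | zero => simp
    | succ j ih =>
      rw [pow_succ', pow_succ', Module.End.mul_apply, Module.End.mul_apply,
        htau hk _ (pow_mem _ tauA_CK j hz), ih]
  refine no_sequence (n := n) (p := p) (fun k => mapL (ZMod p) lam (d k)) ?_ ?_ ?_
  · intro k hk
    refine mapL_mem_CK (fun l _ hl => ?_) (hd1 k hk)
    intro a ha b hb hab
    obtain ⟨x, hx, rfl⟩ := List.mem_map.1 ha
    obtain ⟨y, hy, rfl⟩ := List.mem_map.1 hb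
    exact hlam3 (by omega) (hl.1 x hx) (hl.1 y hy) (hl.2 x hx y hy) hab
  · show bd (mapL (ZMod p) lam (d 0)) = _
    rw [bd_mapL, hd2, mapL_single]
    rfl
  · intro k hk
    show bd (mapL (ZMod p) lam (d (k + 1))) = _
    rw [bd_mapL, hd3 k (by omega)]
    split_ifs with h
    · rw [map_sub, htau (k := k + 1) (by omega) _ (hd1 k (by omega))]
    · rw [nrm_apply, nrm_apply, map_sum]
      refine Finset.sum_congr rfl fun j _ => ?_
      exact htaup (k := k + 1) (by omega) _ (hd1 k (by omega)) j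

end Pool.Agent.LibZpIndex
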