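import Pool.Agent.LibZpIndex.Chain

set_option autoImplicit false
set_option linter.unusedSectionVars false

namespace Pool.Agent.LibZpIndex

open Finsupp

section abstract_part

variable {F : Type*} [CommRing F] {M : Type*} [AddCommGroup M] [Module F M] {p : ℕ} [NeZero p]

lemma sum_range_zmod' (f : ZMod p → M) : ∑ k ∈ Finset.range p, f (k : ZMod p) = ∑ k, f k := by
  refine Finset.sum_nbij' (fun k => (k : ZMod p)) (fun z => z.val) ?_ ?_ ?_ ?_ ?_
  · intro k _; exact Finset.mem_univ _
  · intro z _; exact Finset.mem_range.2 (ZMod.val_lt z)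
  · intro k hk; exact ZMod.val_natCast_of_lt (Finset.mem_range.1 hk)
  · intro z _; exact ZMod.natCast_zmod_val z
  · intro k _; rfl

variable (p) in
/-- the norm element -/
noncomputable def nrm (τ : Module.End F M) : Module.End F M := ∑ j ∈ Finset.range p, τ ^ j

lemma nrm_apply (τ : Module.End F M) (z : M) :
    nrm p τ z = ∑ j ∈ Finset.range p, (τ ^ j) z := by
  unfold nrm
  rw [LinearMap.sum_apply]

variable (τ : Module.End F M) (P : ZMod p → Module.End F M) (R C : Submodule F M)
  (hτR : ∀ z ∈ R, τ z ∈ R) (hPR : ∀ g, ∀ z ∈ R, P g z ∈ R)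
  (hτC : ∀ z ∈ C, τ z ∈ C) (hPC : ∀ g, ∀ z ∈ C, P g z ∈ C)
  (hPτ : ∀ g z, P (g + 1) (τ z) = τ (P g z)) (hsum : ∀ z ∈ C, ∑ g, P g z = z)

include hPτ in
lemma P_pow (g : ZMod p) (j : ℕ) (z : M) : P (g + j) ((τ ^ j) z) = (τ ^ j) (P g z) := by
  induction j with
  | zero => simp
  | succ j ih =>
    rw [pow_succ', Module.End.mul_apply, Module.End.mul_apply, ← ih, ← hPτ]
    congr 2
    push_cast
    ring

include hτR in
lemma pow_sub_mem {z : M} (hz : τ z - z ∈ R) (j : ℕ) : (τ ^ j) z - z ∈ R := by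
  induction j with
  | zero => simp
  | succ j ih =>
    rw [pow_succ', Module.End.mul_apply]
    have : τ ((τ ^ j) z) - z = τ ((τ ^ j) z - z) + (τ z - z) := by
      rw [map_sub]; abel
    rw [this]
    exact R.add_mem (hτR _ ih) hz

include hτR hPR hPC hPτ hsum in
lemma exact1 {z : M} (hzC : z ∈ C) (hz : τ z - z ∈ R) :
    ∃ y ∈ C, z - nrm p τ y ∈ R := by
  refine ⟨P 0 z, hPC 0 z hzC, ?_⟩
  have h1 : z = ∑ j ∈ Finset.range p, P (j : ZMod p) z := by
    rw [sum_range_zmod' (fun g => P g z), hsum z hzC]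
  have h2 : nrm p τ (P 0 z) = ∑ j ∈ Finset.range p, P (j : ZMod p) ((τ ^ j) z) := by
    rw [nrm_apply]
    refine Finset.sum_congr rfl fun j _ => ?_
    rw [← P_pow τ P hPτ 0 j z, zero_add]
  have h3 : z - nrm p τ (P 0 z) = ∑ j ∈ Finset.range p, P (j : ZMod p) (z - (τ ^ j) z) := by
    rw [h2]
    conv_lhs => rw [h1]
    rw [← Finset.sum_sub_distrib]
    refine Finset.sum_congr rfl fun j _ => ?_
    rw [← h1, map_sub]
  rw [h3]
  refine R.sum_mem fun j _ => hPR _ _ ?_
  have := pow_sub_mem τ R hτR hz j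
  rw [← neg_sub]
  exact R.neg_mem this

lemma geom_end (k : ℕ) (w : M) :
    τ (∑ h ∈ Finset.range k, (τ ^ h) w) - ∑ h ∈ Finset.range k, (τ ^ h) w = (τ ^ k) w - w := by
  induction k with
  | zero => simp
  | succ k ih =>
    rw [Finset.sum_range_succ, map_add, pow_succ', Module.End.mul_apply]
    have : τ (∑ h ∈ Finset.range k, (τ ^ h) w) + τ ((τ ^ k) w) - (∑ h ∈ Finset.range k, (τ ^ h) w + (τ ^ k) w) =
        (τ (∑ h ∈ Finset.range k, (τ ^ h) w) - ∑ h ∈ Finset.range k, (τ ^ h) w) + (τ ((τ ^ k) w) - (τ ^ k) w) := by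
      abel
    rw [this, ih]
    abel

lemma pow_mem {C : Submodule F M} (hτC : ∀ z ∈ C, τ z ∈ C) (j : ℕ) {z : M} (hz : z ∈ C) :
    (τ ^ j) z ∈ C := by
  induction j with
  | zero => simpa using hz
  | succ j ih =>
    rw [pow_succ', Module.End.mul_apply]
    exact hτC _ ih

include hPR hτC hPC hPτ hsum in
lemma exact2 {z : M} (hzC : z ∈ C) (hz : nrm p τ z ∈ R) :
    ∃ y ∈ C, z - (τ y - y) ∈ R := by
  refine ⟨-∑ k ∈ Finset.range p, ∑ h ∈ Finset.range k, (τ ^ h) (P (-(k : ZMod p)) z), ?_, ?_⟩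
  · refine C.neg_mem (C.sum_mem fun k _ => C.sum_mem fun h _ => ?_)
    exact pow_mem τ hτC h (hPC _ _ hzC)
  · have h1 : z = ∑ k ∈ Finset.range p, P (-(k : ZMod p)) z := by
      rw [sum_range_zmod' (fun g => P (-g) z)]
      have e0 : ∑ g : ZMod p, P (-g) z = ∑ g, P g z :=
        Equiv.sum_comp (Equiv.neg (ZMod p)) (fun g => P g z)
      rw [e0, hsum z hzC]
    have h2 : ∀ k : ℕ, (τ ^ k) (P (-(k : ZMod p)) z) = P 0 ((τ ^ k) z) := by
      intro k
      rw [← P_pow τ P hPτ (-(k : ZMod p)) k z]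
      simp
    have h3 : τ (-∑ k ∈ Finset.range p, ∑ h ∈ Finset.range k, (τ ^ h) (P (-(k : ZMod p)) z)) -
        (-∑ k ∈ Finset.range p, ∑ h ∈ Finset.range k, (τ ^ h) (P (-(k : ZMod p)) z)) =
        z - P 0 (nrm p τ z) := by
      rw [map_neg, map_sum, nrm_apply, map_sum]
      have e : -∑ k ∈ Finset.range p, τ (∑ h ∈ Finset.range k, (τ ^ h) (P (-(k : ZMod p)) z)) -
          -∑ k ∈ Finset.range p, ∑ h ∈ Finset.range k, (τ ^ h) (P (-(k : ZMod p)) z) =
          -∑ k ∈ Finset.range p, (τ (∑ h ∈ Finset.range k, (τ ^ h) (P (-(k : ZMod p)) z)) -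
            ∑ h ∈ Finset.range k, (τ ^ h) (P (-(k : ZMod p)) z)) := by
        rw [Finset.sum_sub_distrib]; abel
      rw [e]
      have e2 : ∀ k ∈ Finset.range p, (τ (∑ h ∈ Finset.range k, (τ ^ h) (P (-(k : ZMod p)) z)) -
            ∑ h ∈ Finset.range k, (τ ^ h) (P (-(k : ZMod p)) z)) = P 0 ((τ ^ k) z) - P (-(k : ZMod p)) z := by
        intro k _
        rw [geom_end, h2]
      rw [Finset.sum_congr rfl e2, Finset.sum_sub_distrib, ← h1]
      abel
    rw [h3]
    have : z - (z - P 0 (nrm p τ z)) = P 0 (nrm p τ z) := by abel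
    rw [this]
    exact hPR 0 _ hz

end abstract_part

/-! ### labels -/

section labels

variable {F : Type*} [CommRing F] {m p : ℕ} [NeZero p]

/-- lists of vertices of a simplex of the join -/
def Simp (l : List (Fin m × ZMod p)) : Prop := ∀ a ∈ l, ∀ b ∈ l, a.1 = b.1 → a = b

/-- degenerate lists -/
def Deg (l : List (Fin m × ZMod p)) : Prop := Simp l ∧ ¬ l.Nodup

/-- the first vertex of the list has group coordinate `g` -/
def Zg (g : ZMod p) (l : List (Fin m × ZMod p)) : Prop :=
  ∃ a ∈ l, a.2 = g ∧ ∀ b ∈ l, a.1 ≤ b.1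

/-- translation of labels -/
def tl (a : Fin m × ZMod p) : Fin m × ZMod p := (a.1, a.2 + 1)

lemma tl_inj : Function.Injective (tl : Fin m × ZMod p → Fin m × ZMod p) := by
  rintro ⟨i, g⟩ ⟨j, h⟩ e
  simp only [tl, Prod.mk.injEq, add_left_inj] at e
  exact Prod.ext e.1 e.2

lemma Simp_sub : SubClosed (Simp : List (Fin m × ZMod p) → Prop) := by
  intro l l' h hl a ha b hb
  exact hl a (h.subset ha) b (h.subset hb)

lemma Simp_map {l : List (Fin m × ZMod p)} (h : Simp l) : Simp (l.map tl) := by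
  intro a ha b hb hab
  obtain ⟨a', ha', rfl⟩ := List.mem_map.1 ha
  obtain ⟨b', hb', rfl⟩ := List.mem_map.1 hb
  rw [h a' ha' b' hb' hab]

lemma Deg_map {l : List (Fin m × ZMod p)} (h : Deg l) : Deg (l.map tl) := by
  refine ⟨Simp_map h.1, fun h' => h.2 ?_⟩
  exact List.Nodup.of_map _ h'

lemma Zg_map (g : ZMod p) (l : List (Fin m × ZMod p)) : Zg (g + 1) (l.map tl) ↔ Zg g l := by
  constructor
  · rintro ⟨a, ha, hg, hmin⟩
    obtain ⟨a', ha', rfl⟩ := List.mem_map.1 ha
    refine ⟨a', ha', add_left_injective 1 hg, fun b hb => ?_⟩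
    exact hmin (tl b) (List.mem_map.2 ⟨b, hb, rfl⟩)
  · rintro ⟨a, ha, hg, hmin⟩
    refine ⟨tl a, List.mem_map.2 ⟨a, ha, rfl⟩, by simp [tl, hg], fun b hb => ?_⟩
    obtain ⟨b', hb', rfl⟩ := List.mem_map.1 hb
    exact hmin b' hb'

variable (F m p) in
/-- degenerate chains -/
noncomputable def Dg : Submodule F (Ch F (Fin m × ZMod p)) := Finsupp.supported F F {l | Deg l}

variable (F m p) in
/-- degenerate chains and their boundaries -/
noncomputable def Rg : Submodule F (Ch F (Fin m × ZMod p)) := Dg F m p ⊔ (Dg F m p).map bd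

lemma supp_induction {V : Type*} {Q : List V → Prop} {M : Type*} [AddCommGroup M] [Module F M]
    (f : Ch F V →ₗ[F] M) (N : Submodule F M)
    (h : ∀ l : List V, Q l → f (single l 1) ∈ N) {z : Ch F V}
    (hz : z ∈ Finsupp.supported F F {l | Q l}) : f z ∈ N := by
  rw [Finsupp.supported_eq_span_single] at hz
  have : Submodule.span F ((fun i => single i (1 : F)) '' {l | Q l}) ≤ N.comap f := by
    rw [Submodule.span_le]
    rintro _ ⟨l, h2, rfl⟩
    exact h l h2
  exact this hz

open Classical in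
variable (F m) in
/-- restriction to lists whose first vertex has group coordinate `g` -/
noncomputable def Pg (g : ZMod p) : Module.End F (Ch F (Fin m × ZMod p)) :=
  Finsupp.linearCombination F (fun l => if Zg g l then single l 1 else 0)

lemma Pg_single_pos {g : ZMod p} {l : List (Fin m × ZMod p)} (h : Zg g l) (c : F) :
    Pg F m g (single l c) = single l c := by
  unfold Pg
  rw [Finsupp.linearCombination_single, if_pos h]
  simp

lemma Pg_single_neg {g : ZMod p} {l : List (Fin m × ZMod p)} (h : ¬ Zg g l) (c : F) :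
    Pg F m g (single l c) = 0 := by
  unfold Pg
  rw [Finsupp.linearCombination_single, if_neg h]
  simp

variable (F m p) in
/-- the action on chains of labels -/
noncomputable def tau : Module.End F (Ch F (Fin m × ZMod p)) := mapL F tl

lemma Pg_tau (g : ZMod p) (z : Ch F (Fin m × ZMod p)) :
    Pg F m (g + 1) (tau F m p z) = tau F m p (Pg F m g z) := by
  have : Pg F m (g + 1) ∘ₗ tau F m p = tau F m p ∘ₗ Pg F m g := by
    apply lin_ext
    intro l
    simp only [LinearMap.comp_apply]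
    by_cases h : Zg g l
    · rw [Pg_single_pos h, tau, mapL_single, Pg_single_pos ((Zg_map g l).2 h)]
    · rw [Pg_single_neg h, tau, mapL_single, Pg_single_neg (fun h' => h ((Zg_map g l).1 h')), map_zero]
  exact LinearMap.congr_fun this z

lemma tau_Dg {z : Ch F (Fin m × ZMod p)} (hz : z ∈ Dg F m p) : tau F m p z ∈ Dg F m p := by
  refine supp_induction (tau F m p) (Dg F m p) (fun l hl => ?_) hz
  rw [tau, mapL_single]
  exact Finsupp.single_mem_supported _ _ (Deg_map hl)

lemma tau_Rg : ∀ z ∈ Rg F m p, tau F m p z ∈ Rg F m p := by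
  intro z hz
  obtain ⟨a, ha, b, hb, rfl⟩ := Submodule.mem_sup.1 hz
  obtain ⟨c, hc, rfl⟩ := hb
  rw [map_add]
  refine Submodule.add_mem _ (Submodule.mem_sup_left (tau_Dg ha)) (Submodule.mem_sup_right ⟨tau F m p c, tau_Dg hc, ?_⟩)
  rw [tau, bd_mapL]

lemma Pg_Dg (g : ZMod p) {z : Ch F (Fin m × ZMod p)} (hz : z ∈ Dg F m p) : Pg F m g z ∈ Dg F m p := by
  refine supp_induction (Pg F m g) (Dg F m p) (fun l hl => ?_) hz
  by_cases h : Zg g l
  · rw [Pg_single_pos h]; exact Finsupp.single_mem_supported _ _ hl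
  · rw [Pg_single_neg h]; exact Submodule.zero_mem _

lemma Pg_bd_Deg (g : ZMod p) {l : List (Fin m × ZMod p)} (hl : Deg l) :
    Pg F m g (bd (single l 1)) ∈ Rg F m p := by
  classical
  set c : F := if Zg g l then 1 else 0 with hc
  set Q : Ch F (Fin m × ZMod p) →ₗ[F] Ch F (Fin m × ZMod p) :=
    (Pg F m g : Ch F (Fin m × ZMod p) →ₗ[F] Ch F (Fin m × ZMod p)) - c • LinearMap.id with hQ
  have h1 : Q (bd (single l (1 : F))) ∈ Dg F m p := by
    have hsup : bd (single l (1 : F)) ∈ Finsupp.supported F F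
        {l' : List (Fin m × ZMod p) | l'.length + 1 = l.length ∧ l'.Sublist l} := by
      rw [Finsupp.mem_supported]
      intro l' hl'
      exact bd_single_mem l 1 l' hl'
    refine supp_induction Q (Dg F m p) (fun l' hl' => ?_) hsup
    have hsimp : Simp l' := Simp_sub l l' hl'.2 hl.1
    rw [hQ]
    simp only [LinearMap.sub_apply, LinearMap.smul_apply, LinearMap.id_apply]
    by_cases hnd : l'.Nodup
    · have hset : ∀ a, a ∈ l' ↔ a ∈ l := by
        have h2 : l'.toFinset = l.toFinset := by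
          apply Finset.eq_of_subset_of_card_le
          · intro a ha
            rw [List.mem_toFinset] at ha ⊢
            exact hl'.2.subset ha
          · have h3 : l'.toFinset.card = l'.length := List.toFinset_card_of_nodup hnd
            have h4 : l.toFinset.card < l.length := by
              refine lt_of_le_of_ne (List.toFinset_card_le l) fun h5 => hl.2 ?_
              exact Multiset.toFinset_card_eq_card_iff_nodup.1 h5
            have := hl'.1
            omega
        intro a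
        rw [← List.mem_toFinset, h2, List.mem_toFinset]
      have hZ : Zg g l' ↔ Zg g l := by
        unfold Zg
        simp only [hset]
      have : Pg F m g (single l' (1 : F)) - c • single l' (1 : F) = 0 := by
        by_cases h : Zg g l
        · rw [Pg_single_pos (hZ.2 h), hc, if_pos h, one_smul, sub_self]
        · rw [Pg_single_neg (fun h' => h (hZ.1 h')), hc, if_neg h, zero_smul, sub_self]
      rw [this]
      exact Submodule.zero_mem _
    · have hd : single l' (1 : F) ∈ Dg F m p := Finsupp.single_mem_supported _ _ ⟨hsimp, hnd⟩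
      exact Submodule.sub_mem _ (Pg_Dg g hd) (Submodule.smul_mem _ _ hd)
  have h2 : Pg F m g (bd (single l (1 : F))) = Q (bd (single l (1 : F))) +
      c • bd (single l (1 : F)) := by
    rw [hQ]
    simp
  rw [h2]
  refine Submodule.add_mem _ (Submodule.mem_sup_left h1) (Submodule.smul_mem _ _ (Submodule.mem_sup_right ?_))
  exact ⟨single l 1, Finsupp.single_mem_supported _ _ hl, rfl⟩

lemma Pg_Rg : ∀ g : ZMod p, ∀ z ∈ Rg F m p, Pg F m g z ∈ Rg F m p := by
  intro g z hz
  obtain ⟨a, ha, b, hb, rfl⟩ := Submodule.mem_sup.1 hz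
  obtain ⟨c, hc, rfl⟩ := hb
  rw [map_add]
  refine Submodule.add_mem _ (Submodule.mem_sup_left (Pg_Dg g ha)) ?_
  exact supp_induction (Pg F m g ∘ₗ bd) (Rg F m p) (fun l hl => Pg_bd_Deg g hl) hc

lemma bd_Rg {z : Ch F (Fin m × ZMod p)} (hz : z ∈ Rg F m p) : bd z ∈ Rg F m p := by
  obtain ⟨a, ha, b, hb, rfl⟩ := Submodule.mem_sup.1 hz
  obtain ⟨c, hc, rfl⟩ := hb
  rw [map_add, bd_bd, add_zero]
  exact Submodule.mem_sup_right ⟨a, ha, rfl⟩

lemma Rg_nil {z : Ch F (Fin m × ZMod p)} (hz : z ∈ Rg F m p) : z [] = 0 := by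
  obtain ⟨a, ha, b, hb, rfl⟩ := Submodule.mem_sup.1 hz
  obtain ⟨c, hc, rfl⟩ := hb
  have hlen : ∀ l : List (Fin m × ZMod p), Deg l → 2 ≤ l.length := by
    intro l hl
    rcases l with _ | ⟨x, _ | ⟨y, l⟩⟩
    · exact absurd List.nodup_nil hl.2
    · exact absurd (List.nodup_singleton x) hl.2
    · simp
  have h1 : a [] = 0 := by
    by_contra h
    have := (Finsupp.mem_supported F a).1 ha (Finsupp.mem_support_iff.2 h)
    have := hlen _ this
    simp at this
  have h2 : (bd c) [] = 0 := by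
    have := supp_induction ((Finsupp.lapply ([] : List (Fin m × ZMod p))) ∘ₗ bd) (⊥ : Submodule F F)
      (fun l hl => by
        rw [Submodule.mem_bot]
        simp only [LinearMap.comp_apply, Finsupp.lapply_apply]
        by_contra h
        have h3 := bd_single_mem l (1 : F) [] (Finsupp.mem_support_iff.2 h)
        have h4 := hlen l hl
        have := h3.1
        simp at this
        omega) hc
    rw [Submodule.mem_bot] at this
    exact this
  rw [Finsupp.add_apply, h1, h2, add_zero]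

lemma tau_CK (k : ℕ) : ∀ z ∈ CK F (Simp : List (Fin m × ZMod p) → Prop) k, tau F m p z ∈ CK F Simp k :=
  fun _ hz => mapL_mem_CK (fun _ _ hl => Simp_map hl) hz

lemma Pg_CK (k : ℕ) : ∀ g : ZMod p, ∀ z ∈ CK F (Simp : List (Fin m × ZMod p) → Prop) k,
    Pg F m g z ∈ CK F Simp k := by
  intro g z hz
  refine CK_induction (Pg F m g) _ (fun l h1 h2 => ?_) hz
  by_cases h : Zg g l
  · rw [Pg_single_pos h]; exact single_mem_CK h1 h2 1
  · rw [Pg_single_neg h]; exact Submodule.zero_mem _

lemma Pg_sum (k : ℕ) : ∀ z ∈ CK F (Simp : List (Fin m × ZMod p) → Prop) (k + 1),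
    ∑ g, Pg F m g z = z := by
  classical
  intro z hz
  have h0 : (∑ g : ZMod p, (Pg F m g : Ch F (Fin m × ZMod p) →ₗ[F] Ch F (Fin m × ZMod p))) z =
      (LinearMap.id : Ch F (Fin m × ZMod p) →ₗ[F] Ch F (Fin m × ZMod p)) z := by
    refine CK_eq _ _ (fun l h1 h2 => ?_) hz
    rw [LinearMap.sum_apply, LinearMap.id_apply]
    have hne : l.toFinset.Nonempty := by
      rcases l with _ | ⟨x, l⟩
      · simp at h1
      · exact ⟨x, by simp⟩
    obtain ⟨a, ha, hmin⟩ := Finset.exists_min_image l.toFinset (fun a => a.1) hne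
    rw [List.mem_toFinset] at ha
    have hmin' : ∀ b ∈ l, a.1 ≤ b.1 := fun b hb => hmin b (List.mem_toFinset.2 hb)
    rw [Finset.sum_eq_single a.2]
    · exact Pg_single_pos ⟨a, ha, rfl, hmin'⟩ 1
    · intro g _ hg
      refine Pg_single_neg ?_ 1
      rintro ⟨b, hb, hbg, hbmin⟩
      have : a = b := h2 a ha b hb (le_antisymm (hmin' b hb) (hbmin a ha))
      rw [this] at hg
      exact hg hbg.symm
    · intro h; exact absurd (Finset.mem_univ _) h
  rw [LinearMap.sum_apply] at h0
  exact h0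

lemma CK_top {n : ℕ} {z : Ch F (Fin (n + 1) × ZMod p)} (hz : z ∈ CK F Simp (n + 2)) :
    z ∈ Dg F (n + 1) p := by
  refine CK_induction LinearMap.id (Dg F (n + 1) p) (fun l h1 h2 => ?_) hz
  refine Finsupp.single_mem_supported _ _ ⟨h2, fun hnd => ?_⟩
  have h3 : (l.map Prod.fst).Nodup := by
    rw [List.nodup_map_iff_inj_on hnd]
    intro a ha b hb hab
    exact h2 a ha b hb hab
  have h4 := h3.length_le_card
  rw [List.length_map, h1, Fintype.card_fin] at h4
  omega

end labels

end Pool.Agent.LibZpIndex
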