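import Pool.Agent.LibZpIndex.Descend

set_option autoImplicit false
set_option linter.unusedSectionVars false

namespace Pool.Agent.LibZpIndex

open Finsupp

/-- ambient space of the join -/
abbrev Amb (N p : ℕ) : Type := Fin N → ZMod p → ℝ

variable {N p : ℕ} [NeZero p]

/-- the join of the first `k` copies inside the ambient space -/
def Ks (N p : ℕ) [NeZero p] (k : ℕ) : Set (Amb N p) :=
  {x | (∀ i g, 0 ≤ x i g) ∧ (∑ i, ∑ g, x i g = 1) ∧ (∀ i g h, x i g ≠ 0 → x i h ≠ 0 → g = h) ∧
    ∀ i : Fin N, k ≤ (i : ℕ) → ∀ g, x i g = 0}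

/-- translation in the ambient space -/
def tr (x : Amb N p) : Amb N p := fun i g => x i (g - 1)

lemma tr_Ks {k : ℕ} {x : Amb N p} (h : x ∈ Ks N p k) : tr x ∈ Ks N p k := by
  refine ⟨fun i g => h.1 i _, ?_, fun i g g' hg hg' => ?_, fun i hi g => h.2.2.2 i hi _⟩
  · refine Eq.trans ?_ h.2.1
    refine Finset.sum_congr rfl fun i _ => ?_
    exact Equiv.sum_comp (Equiv.subRight (1 : ZMod p)) (x i)
  · exact sub_left_injective (h.2.2.1 i _ _ hg hg')

lemma dist_tr (x y : Amb N p) : dist (tr x) (tr y) ≤ dist x y := by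
  refine (dist_pi_le_iff dist_nonneg).2 fun i => (dist_pi_le_iff dist_nonneg).2 fun g => ?_
  exact (dist_le_pi_dist (x i) (y i) (g - 1)).trans (dist_le_pi_dist x y i)

lemma tr_iterate (j : ℕ) (x : Amb N p) (i : Fin N) (g : ZMod p) : (tr^[j] x) i g = x i (g - j) := by
  induction j generalizing g with
  | zero => simp
  | succ j ih =>
    rw [Function.iterate_succ_apply']
    show (tr^[j] x) i (g - 1) = _
    rw [ih, show g - 1 - (j : ZMod p) = g - ((j + 1 : ℕ) : ZMod p) by push_cast; ring]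

lemma tr_period (x : Amb N p) : tr^[p] x = x := by
  funext i g
  rw [tr_iterate]
  simp

/-- the vertex of the join with index `k` -/
noncomputable def vk (N p : ℕ) (k : ℕ) : Amb N p := fun i g => if (i : ℕ) = k ∧ g = 0 then 1 else 0

/-- moving towards the vertex -/
noncomputable def mv (k : ℕ) (s : ℝ) (x : Amb N p) : Amb N p :=
  fun i g => (1 - s) * x i g + s * vk N p k i g

lemma Ks_le_one {k : ℕ} {x : Amb N p} (h : x ∈ Ks N p k) (i : Fin N) (g : ZMod p) : x i g ≤ 1 := by
  rw [← h.2.1]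
  calc x i g ≤ ∑ g, x i g := Finset.single_le_sum (fun g _ => h.1 i g) (Finset.mem_univ g)
    _ ≤ ∑ i, ∑ g, x i g := Finset.single_le_sum (f := fun i => ∑ g, x i g)
        (fun i _ => Finset.sum_nonneg fun g _ => h.1 i g) (Finset.mem_univ i)

lemma vk_sum {k : ℕ} (hk : k < N) : ∑ i, ∑ g, vk N p k i g = 1 := by
  classical
  rw [Finset.sum_eq_single (⟨k, hk⟩ : Fin N)]
  · rw [Finset.sum_eq_single (0 : ZMod p)]
    · simp [vk]
    · intro g _ hg
      simp [vk, hg]
    · intro h; exact absurd (Finset.mem_univ _) h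
  · intro i _ hi
    refine Finset.sum_eq_zero fun g _ => ?_
    unfold vk
    rw [if_neg]
    rintro ⟨h1, _⟩
    exact hi (Fin.ext h1)
  · intro h; exact absurd (Finset.mem_univ _) h

lemma vk_Ks {k : ℕ} (hk : k < N) : vk N p k ∈ Ks N p (k + 1) := by
  refine ⟨fun i g => ?_, vk_sum hk, fun i g h hg hh => ?_, fun i hi g => ?_⟩
  · unfold vk; split_ifs <;> norm_num
  · unfold vk at hg hh
    have h1 : (i : ℕ) = k ∧ g = 0 := by
      by_contra hcon; rw [if_neg hcon] at hg; exact hg rfl
    have h2 : (i : ℕ) = k ∧ h = 0 := by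
      by_contra hcon; rw [if_neg hcon] at hh; exact hh rfl
    rw [h1.2, h2.2]
  · unfold vk
    rw [if_neg]
    rintro ⟨h1, _⟩
    omega

lemma mv_Ks {k : ℕ} (hk : k < N) {x : Amb N p} (h : x ∈ Ks N p k) {s : ℝ} (hs0 : 0 ≤ s) (hs1 : s ≤ 1) :
    mv k s x ∈ Ks N p (k + 1) := by
  have hv := vk_Ks (p := p) hk
  refine ⟨fun i g => ?_, ?_, fun i g g' hg hg' => ?_, fun i hi g => ?_⟩
  · unfold mv
    have := h.1 i g
    have := hv.1 i g
    have : 0 ≤ 1 - s := by linarith
    positivity
  · unfold mv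
    simp_rw [Finset.sum_add_distrib, ← Finset.mul_sum]
    rw [h.2.1, hv.2.1]
    ring
  · unfold mv at hg hg'
    by_cases hik : (i : ℕ) = k
    · have h0 : ∀ g, x i g = 0 := h.2.2.2 i (by omega)
      rw [h0, mul_zero, zero_add] at hg hg'
      exact hv.2.2.1 i _ _ (right_ne_zero_of_mul hg) (right_ne_zero_of_mul hg')
    · have h0 : ∀ g, vk N p k i g = 0 := fun g => by
        unfold vk; rw [if_neg]; exact fun h => hik h.1
      rw [h0, mul_zero, add_zero] at hg hg'
      exact h.2.2.1 i _ _ (right_ne_zero_of_mul hg) (right_ne_zero_of_mul hg')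
  · unfold mv
    rw [h.2.2.2 i (by omega) g, hv.2.2.2 i hi g]
    ring

lemma dist_mv_same {k : ℕ} (x y : Amb N p) {s : ℝ} (hs0 : 0 ≤ s) (hs1 : s ≤ 1) :
    dist (mv k s x) (mv k s y) ≤ dist x y := by
  refine (dist_pi_le_iff dist_nonneg).2 fun i => (dist_pi_le_iff dist_nonneg).2 fun g => ?_
  have h1 : dist (x i g) (y i g) ≤ dist x y :=
    (dist_le_pi_dist (x i) (y i) g).trans (dist_le_pi_dist x y i)
  rw [Real.dist_eq] at h1 ⊢
  unfold mv
  have : (1 - s) * x i g + s * vk N p k i g - ((1 - s) * y i g + s * vk N p k i g) = (1 - s) * (x i g - y i g) := by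
    ring
  rw [this, abs_mul, abs_of_nonneg (by linarith)]
  have := abs_nonneg (x i g - y i g)
  nlinarith

lemma dist_mv_diff {k j : ℕ} {y : Amb N p} (hy : y ∈ Ks N p j) (s s' : ℝ) :
    dist (mv k s y) (mv k s' y) ≤ |s - s'| := by
  refine (dist_pi_le_iff (abs_nonneg _)).2 fun i => (dist_pi_le_iff (abs_nonneg _)).2 fun g => ?_
  rw [Real.dist_eq]
  unfold mv
  have : (1 - s) * y i g + s * vk N p k i g - ((1 - s') * y i g + s' * vk N p k i g) = (s - s') * (vk N p k i g - y i g) := by
    ring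
  rw [this, abs_mul]
  have h1 : |vk N p k i g - y i g| ≤ 1 := by
    rw [abs_le]
    have h2 := hy.1 i g
    have h3 := Ks_le_one hy i g
    have h4 : 0 ≤ vk N p k i g ∧ vk N p k i g ≤ 1 := by
      unfold vk; split_ifs <;> norm_num
    constructor <;> linarith [h4.1, h4.2]
  calc |s - s'| * |vk N p k i g - y i g| ≤ |s - s'| * 1 := mul_le_mul_of_nonneg_left h1 (abs_nonneg _)
    _ = |s - s'| := mul_one _

variable {F : Type*} [CommRing F]

/-- small lists in the join of the first `k` copies -/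
abbrev SmK (N p : ℕ) [NeZero p] (k : ℕ) (ε : ℝ) : List (Amb N p) → Prop :=
  Sm (Ks N p k) (fun x y => dist x y < ε)

/-- cycles in the join of the first `k` copies bound in the join of the first `k+1` copies -/
lemma fill {k : ℕ} (hk : k < N) {ε : ℝ} (hε : 0 < ε) {m : ℕ} {z : Ch F (Amb N p)}
    (hz : z ∈ CK F (SmK N p k (ε / 2)) m) (hc : bd z = 0) :
    ∃ y ∈ CK F (SmK N p (k + 1) ε) (m + 1), bd y = z := by
  obtain ⟨L, hL⟩ := exists_nat_gt (2 / ε)
  have hL0 : 0 < L := by
    have : (0:ℝ) < L := lt_trans (by positivity) hL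
    exact_mod_cast this
  have hLr : (0:ℝ) < L := by exact_mod_cast hL0
  have hLe : 1 / (L:ℝ) < ε / 2 := by
    rw [div_lt_iff₀ hLr]
    rw [div_lt_iff₀ hε] at hL
    linarith
  have hdiv : ∀ i : ℕ, i ≤ L → (i:ℝ) / L ≤ 1 := fun i hi => by
    rw [div_le_one hLr]; exact_mod_cast hi
  have hdiv0 : ∀ i : ℕ, 0 ≤ (i:ℝ) / L := fun i => by positivity
  obtain ⟨y', hy', hyb⟩ := homotopy_steps (F := F) (A := Ks N p (k + 1)) (D := fun x y => dist x y < ε)
    (fun (i : ℕ) (x : Amb N p) => mv k ((i:ℝ) / L) x) L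
    (fun i hi l hl x hx => mv_Ks hk (hl.1 x hx) (hdiv0 i) (hdiv i hi))
    (fun i hi l hl x hx y hy => by
      have hxy : dist x y < ε / 2 := hl.2 x hx y hy
      have hs1 := hdiv i hi.le
      have hs2 := hdiv (i + 1) hi
      have hs3 := hdiv0 i
      have hs4 := hdiv0 (i + 1)
      have hss : |((i:ℝ) / L) - (((i + 1 : ℕ) : ℝ) / L)| < ε / 2 := by
        have : ((i:ℝ) / L) - (((i + 1 : ℕ) : ℝ) / L) = -(1 / L) := by
          push_cast; ring
        rw [this, abs_neg, abs_of_pos (by positivity)]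
        exact hLe
      have hss' : |(((i + 1 : ℕ) : ℝ) / L) - ((i:ℝ) / L)| < ε / 2 := by
        rw [abs_sub_comm]; exact hss
      refine ⟨?_, ?_, ?_, ?_⟩
      · exact lt_of_le_of_lt (dist_mv_same x y hs3 hs1) (by linarith)
      · calc dist (mv k ((i:ℝ) / L) x) (mv k (((i + 1 : ℕ) : ℝ) / L) y)
            ≤ dist (mv k ((i:ℝ) / L) x) (mv k ((i:ℝ) / L) y) +
              dist (mv k ((i:ℝ) / L) y) (mv k (((i + 1 : ℕ) : ℝ) / L) y) := dist_triangle _ _ _
          _ < ε := by
            have h1 := dist_mv_same (k := k) x y hs3 hs1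
            have h2 := dist_mv_diff (k := k) (hl.1 y hy) ((i:ℝ) / L) (((i + 1 : ℕ) : ℝ) / L)
            linarith
      · calc dist (mv k (((i + 1 : ℕ) : ℝ) / L) x) (mv k ((i:ℝ) / L) y)
            ≤ dist (mv k (((i + 1 : ℕ) : ℝ) / L) x) (mv k (((i + 1 : ℕ) : ℝ) / L) y) +
              dist (mv k (((i + 1 : ℕ) : ℝ) / L) y) (mv k ((i:ℝ) / L) y) := dist_triangle _ _ _
          _ < ε := by
            have h1 := dist_mv_same (k := k) x y hs4 hs2
            have h2 := dist_mv_diff (k := k) (hl.1 y hy) (((i + 1 : ℕ) : ℝ) / L) ((i:ℝ) / L)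
            linarith
      · exact lt_of_le_of_lt (dist_mv_same x y hs4 hs2) (by linarith)) hz hc
  have e0 : (fun x : Amb N p => mv k (((0 : ℕ) : ℝ) / L) x) = id := by
    funext x i g
    simp [mv]
  have e1 : (fun x : Amb N p => mv k (((L : ℕ) : ℝ) / L) x) = fun _ => vk N p k := by
    funext x i g
    simp [mv, div_self hLr.ne']
  rw [e0, e1, mapL_id] at hyb
  set z' := mapL F (fun _ : Amb N p => vk N p k) z with hz'
  have hz'c : bd z' = 0 := by rw [hz', bd_mapL, hc, map_zero]
  refine ⟨consL F (vk N p k) z' - y', Submodule.sub_mem _ ?_ hy', ?_⟩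
  · have h1 : z' ∈ CK F (fun l : List (Amb N p) => ∀ x ∈ l, x = vk N p k) m :=
      mapL_mem_CK (fun l _ _ => by
        intro x hx
        obtain ⟨_, _, rfl⟩ := List.mem_map.1 hx
        rfl) hz
    refine consL_mem_CK (fun l _ hl => ?_) h1
    have hall : ∀ x ∈ vk N p k :: l, x = vk N p k := by
      intro x hx
      rcases List.mem_cons.1 hx with h | h
      · exact h
      · exact hl x h
    refine ⟨fun x hx => by rw [hall x hx]; exact vk_Ks hk, fun x hx y hy => ?_⟩
    rw [hall x hx, hall y hy]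
    show dist _ _ < ε
    rw [dist_self]
    exact hε
  · rw [map_sub, bd_consL, hz'c, map_zero, sub_zero, hyb]
    abel

variable (F) in
/-- the action on chains in the ambient space -/
noncomputable def tauA (N p : ℕ) [NeZero p] : Module.End F (Ch F (Amb N p)) := mapL F tr

lemma tauA_pow (j : ℕ) (z : Ch F (Amb N p)) : (tauA F N p ^ j) z = mapL F (tr^[j]) z := by
  induction j with
  | zero =>
    rw [pow_zero, Module.End.one_apply, Function.iterate_zero]
    exact (mapL_id z).symm
  | succ j ih =>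
    rw [pow_succ', Module.End.mul_apply, ih, tauA, mapL_mapL, Function.iterate_succ']

lemma tauA_period (z : Ch F (Amb N p)) : (tauA F N p ^ p) z = z := by
  rw [tauA_pow]
  have : (tr^[p] : Amb N p → Amb N p) = id := by
    funext x
    exact tr_period x
  rw [this, mapL_id]

lemma tauA_bd (z : Ch F (Amb N p)) : bd (tauA F N p z) = tauA F N p (bd z) := bd_mapL _ _

lemma tauA_CK {k m : ℕ} {ε : ℝ} : ∀ z ∈ CK F (SmK N p k ε) m, tauA F N p z ∈ CK F (SmK N p k ε) m := by
  intro z hz
  refine mapL_mem_CK (fun l _ hl => ⟨?_, ?_⟩) hz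
  · intro x hx
    obtain ⟨x', hx', rfl⟩ := List.mem_map.1 hx
    exact tr_Ks (hl.1 x' hx')
  · intro x hx y hy
    obtain ⟨x', hx', rfl⟩ := List.mem_map.1 hx
    obtain ⟨y', hy', rfl⟩ := List.mem_map.1 hy
    exact lt_of_le_of_lt (dist_tr x' y') (hl.2 x' hx' y' hy')

/-- the standard sequence of small chains -/
theorem exists_seq (k : ℕ) (hk : k < N) : ∀ ε > 0, ∃ d : ℕ → Ch F (Amb N p),
    (∀ j ≤ k, d j ∈ CK F (SmK N p (j + 1) ε) (j + 1)) ∧ bd (d 0) = single [] 1 ∧
    ∀ j < k, bd (d (j + 1)) = if Even j then tauA F N p (d j) - d j else nrm p (tauA F N p) (d j) := by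
  classical
  induction k with
  | zero =>
    intro ε hε
    refine ⟨fun _ => single [vk N p 0] 1, ?_, ?_, ?_⟩
    · intro j hj
      obtain rfl : j = 0 := by omega
      refine single_mem_CK rfl ⟨?_, ?_⟩ 1
      · intro x hx
        rw [List.mem_singleton] at hx
        rw [hx]; exact vk_Ks hk
      · intro x hx y hy
        rw [List.mem_singleton] at hx hy
        rw [hx, hy, dist_self]; exact hε
    · rw [bd_single_cons]; simp
    · intro j hj; omega
  | succ k ih =>
    intro ε hε
    obtain ⟨d, hd1, hd2, hd3⟩ := ih (by omega) (ε / 2) (by positivity)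
    set z : Ch F (Amb N p) := if Even k then tauA F N p (d k) - d k else nrm p (tauA F N p) (d k) with hz
    have hzm : z ∈ CK F (SmK N p (k + 1) (ε / 2)) (k + 1) := by
      rw [hz]
      split_ifs
      · exact Submodule.sub_mem _ (tauA_CK _ (hd1 k le_rfl)) (hd1 k le_rfl)
      · rw [nrm_apply]
        exact Submodule.sum_mem _ fun j _ => pow_mem _ tauA_CK j (hd1 k le_rfl)
    have hzc : bd z = 0 := by
      rcases Nat.eq_zero_or_pos k with h0 | h0
      · subst h0
        rw [hz, if_pos (by decide), map_sub, tauA_bd, hd2, tauA, mapL_single]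
        simp
      · obtain ⟨j, rfl⟩ : ∃ j, k = j + 1 := ⟨k - 1, by omega⟩
        have h1 := hd3 j (by omega)
        rw [hz]
        by_cases hj : Even j
        · rw [if_neg (by rw [Nat.even_add_one]; exact fun h => h hj),
            comm_nrm (tauA F N p) (tauA F N p) bd tauA_bd, h1, if_pos hj]
          exact nrm_sub _ tauA_period _
        · rw [if_pos (by rw [Nat.even_add_one]; exact hj), map_sub, tauA_bd, h1, if_neg hj,
            tau_nrm _ tauA_period, sub_self]
    obtain ⟨y, hy, hyb⟩ := fill hk hε hzm hzc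
    refine ⟨fun j => if j ≤ k then d j else y, ?_, ?_, ?_⟩
    · intro j hj
      by_cases h : j ≤ k
      · simp only [if_pos h]
        refine CK_mono (fun l hl => Sm_mono subset_rfl (fun x y hxy => ?_) hl) _ (hd1 j h)
        linarith
      · simp only [if_neg h]
        obtain rfl : j = k + 1 := by omega
        exact hy
    · simp only [if_pos (Nat.zero_le k)]
      exact hd2
    · intro j hj
      rcases Nat.lt_or_ge j k with h | h
      · simp only [if_pos (show j + 1 ≤ k by omega), if_pos h.le]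
        exact hd3 j h
      · obtain rfl : j = k := by omega
        simp only [if_neg (show ¬ j + 1 ≤ j by omega), if_pos le_rfl]
        rw [hyb, hz]

end Pool.Agent.LibZpIndex
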