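import Pool.Agent.LibZpIndex.Basic

set_option autoImplicit false
open Topology

namespace Pool.Agent.LibZpIndex

/-- bi-infinite sequences in the two-dimensional torus whose consecutive terms have distance at
least one -/
abbrev Xs : Type := {x : ℤ → Circle × Circle // ∀ n, 1 ≤ dist (x n) (x (n + 1))}

instance : CompactSpace Xs := by
  have hclosed : IsClosed {x : ℤ → Circle × Circle | ∀ n, 1 ≤ dist (x n) (x (n + 1))} := by
    rw [Set.ofPred_forall]
    refine isClosed_iInter fun n => ?_
    exact isClosed_le continuous_const ((continuous_apply n).dist (continuous_apply (n + 1)))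
  exact isCompact_iff_compactSpace.1 hclosed.isCompact

instance : SecondCountableTopology Xs :=
  inferInstanceAs (SecondCountableTopology
    ({x : ℤ → Circle × Circle | ∀ n, 1 ≤ dist (x n) (x (n + 1))} : Set (ℤ → Circle × Circle)))

instance : TopologicalSpace.MetrizableSpace Xs :=
  TopologicalSpace.metrizableSpace_of_t3_secondCountable _

/-- the shift -/
def shiftHomeo : Xs ≃ₜ Xs where
  toFun x := ⟨fun n => x.1 (n + 1), fun n => x.2 (n + 1)⟩
  invFun x := ⟨fun n => x.1 (n - 1), fun n => by
    have := x.2 (n - 1)
    rwa [show n - 1 + 1 = n + 1 - 1 by ring] at this⟩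
  left_inv x := by
    apply Subtype.ext
    funext n
    simp
  right_inv x := by
    apply Subtype.ext
    funext n
    simp
  continuous_toFun := by
    refine Continuous.subtype_mk ?_ _
    exact continuous_pi fun n => (continuous_apply (n + 1)).comp continuous_subtype_val
  continuous_invFun := by
    refine Continuous.subtype_mk ?_ _
    exact continuous_pi fun n => (continuous_apply (n - 1)).comp continuous_subtype_val

lemma shift_ne (x : Xs) : shiftHomeo x ≠ x := by
  intro h
  have h1 := x.2 0
  have h2 : x.1 (0 + 1) = x.1 0 := congrFun (congrArg Subtype.val h) 0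
  rw [h2, dist_self] at h1
  linarith

lemma shift_iterate (x : Xs) (k : ℕ) (n : ℤ) : ((shiftHomeo : Xs → Xs)^[k] x).1 n = x.1 (n + k) := by
  induction k generalizing n with
  | zero => simp
  | succ k ih =>
    rw [Function.iterate_succ_apply']
    show ((shiftHomeo : Xs → Xs)^[k] x).1 (n + 1) = _
    rw [ih, show n + 1 + (k : ℤ) = n + ((k + 1 : ℕ) : ℤ) by push_cast; ring]

variable {n p : ℕ} [NeZero p]

/-- the sequence attached to a point of the join -/
def useq (x : EZ n p) : ZMod p → ℝ := fun k => ∑ i, x.1 i (-k)

lemma useq_trans (a : ZMod p) (x : EZ n p) (k : ZMod p) : useq (trans a x) k = useq x (k + a) := by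
  unfold useq
  refine Finset.sum_congr rfl fun i _ => ?_
  show x.1 i (-k - a) = x.1 i (-(k + a))
  rw [show -k - a = -(k + a) by ring]

lemma useq_nonneg (x : EZ n p) (k : ZMod p) : 0 ≤ useq x k :=
  Finset.sum_nonneg fun i _ => x.2.1 i _

lemma useq_sum (x : EZ n p) : ∑ k, useq x k = 1 := by
  unfold useq
  rw [Finset.sum_comm]
  refine Eq.trans ?_ x.2.2.1
  refine Finset.sum_congr rfl fun i _ => ?_
  exact Equiv.sum_comp (Equiv.neg (ZMod p)) (x.1 i)

lemma useq_support (x : EZ n p) : (Finset.univ.filter (fun k => useq x k ≠ 0)).card ≤ n + 1 := by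
  classical
  have h1 : (Finset.univ.filter (fun k => useq x k ≠ 0)) ⊆
      (Finset.univ : Finset (Fin (n + 1))).biUnion (fun i => Finset.univ.filter (fun k => x.1 i (-k) ≠ 0)) := by
    intro k hk
    rw [Finset.mem_filter] at hk
    obtain ⟨i, _, hi⟩ := Finset.exists_ne_zero_of_sum_ne_zero hk.2
    exact Finset.mem_biUnion.2 ⟨i, Finset.mem_univ _, Finset.mem_filter.2 ⟨Finset.mem_univ _, hi⟩⟩
  refine (Finset.card_le_card h1).trans ?_
  refine (Finset.card_biUnion_le_card_mul _ _ 1 fun i _ => ?_).trans ?_
  · rw [Finset.card_le_one]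
    intro a ha b hb
    rw [Finset.mem_filter] at ha hb
    have := x.2.2.2 i _ _ ha.2 hb.2
    exact neg_injective this
  · simp

lemma jump_useq_pos (hn : n + 2 ≤ p) (x : EZ n p) : 0 < jump (useq x) := by
  classical
  rcases (norm_nonneg (fun k : ZMod p => useq x (k + 1) - useq x k)).lt_or_eq with h | h
  · exact h
  · exfalso
    have h0 : (fun k : ZMod p => useq x (k + 1) - useq x k) = 0 := norm_eq_zero.1 h.symm
    have h1 : ∀ k : ZMod p, useq x (k + 1) = useq x k := fun k => by
      have := congrFun h0 k
      simp only [Pi.zero_apply] at this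
      linarith
    have h2 : ∀ k : ℕ, useq x ((k : ZMod p)) = useq x 0 := by
      intro k
      induction k with
      | zero => simp
      | succ k ih => rw [Nat.cast_succ, h1, ih]
    have h3 : ∀ z : ZMod p, useq x z = useq x 0 := fun z => by
      have := h2 z.val
      rwa [ZMod.natCast_zmod_val] at this
    have h4 : useq x 0 ≠ 0 := by
      intro h5
      have h6 := useq_sum x
      rw [Finset.sum_congr rfl (fun z _ => h3 z), h5] at h6
      simp at h6
    have h7 : (Finset.univ.filter (fun k => useq x k ≠ 0)) = Finset.univ := by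
      rw [Finset.filter_true_of_mem]
      intro z _
      rw [h3 z]
      exact h4
    have h8 := useq_support x
    rw [h7, Finset.card_univ, ZMod.card] at h8
    omega

/-- the orbit map -/
noncomputable def toXs (hn : n + 2 ≤ p) (x : EZ n p) : Xs :=
  ⟨fun k => tor (useq (trans (k : ZMod p) x)), fun k => by
    have h := tor_sep (jump_useq_pos hn (trans (k : ZMod p) x))
    rw [dist_comm] at h
    have h2 : (fun j => useq (trans (k : ZMod p) x) (j + 1)) = useq (trans ((k + 1 : ℤ) : ZMod p) x) := by
      funext j
      rw [useq_trans, useq_trans]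
      congr 1
      push_cast
      ring
    rw [h2] at h
    exact h⟩

lemma continuous_toXs (hn : n + 2 ≤ p) : Continuous (toXs hn : EZ n p → Xs) := by
  refine Continuous.subtype_mk ?_ _
  refine continuous_pi fun k => ?_
  have hu : Continuous (useq : EZ n p → ZMod p → ℝ) := by
    unfold useq
    refine continuous_pi fun j => continuous_finsetSum _ fun i _ => ?_
    exact (continuous_apply_apply i (-j)).comp continuous_subtype_val
  exact continuous_tor (hu.comp (continuous_trans (k : ZMod p)))
    (fun x => jump_useq_pos hn (trans (k : ZMod p) x))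

lemma toXs_act (hn : n + 2 ≤ p) (x : EZ n p) : toXs hn (act x) = shiftHomeo (toXs hn x) := by
  apply Subtype.ext
  funext k
  show tor (useq (trans (k : ZMod p) (trans 1 x))) = tor (useq (trans ((k + 1 : ℤ) : ZMod p) x))
  rw [trans_trans]
  congr 3
  push_cast
  ring

lemma toXs_periodic (hn : n + 2 ≤ p) (x : EZ n p) : (shiftHomeo : Xs → Xs)^[p] (toXs hn x) = toXs hn x := by
  apply Subtype.ext
  funext k
  rw [shift_iterate]
  show tor (useq (trans ((k + (p : ℤ) : ℤ) : ZMod p) x)) = tor (useq (trans (k : ZMod p) x))
  congr 3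
  push_cast
  simp

end Pool.Agent.LibZpIndex
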